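import Pool.Agent.N4.KR.Stm

/-!
# Leaf 6: low frequencies (helper681)
-/

set_option autoImplicit false

namespace Pool.Agent.N4.KR

open Finset

section

variable {V : Type} [Fintype V] [DecidableEq V]

/-- the push-forward of a product of two weights -/
def pf6 (op : Finset V → Finset V → Finset V) (w1 w2 : Finset V → ℝ) (C : Finset V) : ℝ :=
  ∑ A, ∑ B, if op A B = C then w1 A * w2 B else 0

theorem pf6_sum (op : Finset V → Finset V → Finset V) (w1 w2 g : Finset V → ℝ) :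
    ∑ C, pf6 op w1 w2 C * g C = ∑ A, ∑ B, w1 A * w2 B * g (op A B) := by
  unfold pf6
  simp only [Finset.sum_mul]
  rw [Finset.sum_comm]
  refine Finset.sum_congr rfl fun A _ => ?_
  rw [Finset.sum_comm]
  refine Finset.sum_congr rfl fun B _ => ?_
  simp only [ite_mul, zero_mul]
  rw [Finset.sum_ite_eq]
  simp

theorem pf6_ne {op : Finset V → Finset V → Finset V} {w1 w2 : Finset V → ℝ} {C : Finset V}
    (h : pf6 op w1 w2 C ≠ 0) : ∃ A B, w1 A ≠ 0 ∧ w2 B ≠ 0 ∧ op A B = C := by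
  unfold pf6 at h
  obtain ⟨A, -, hA⟩ := Finset.exists_ne_zero_of_sum_ne_zero h
  obtain ⟨B, -, hB⟩ := Finset.exists_ne_zero_of_sum_ne_zero hA
  have h1 : op A B = C := by
    by_contra hne
    rw [if_neg hne] at hB
    exact hB rfl
  rw [if_pos h1] at hB
  exact ⟨A, B, left_ne_zero_of_mul hB, right_ne_zero_of_mul hB, h1⟩

theorem pf6_pw (op : Finset V → Finset V → Finset V) {w1 w2 : Finset V → ℝ} (h1 : PW w1)
    (h2 : PW w2) : PW (pf6 op w1 w2) := by
  constructor
  · intro C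
    unfold pf6
    refine Finset.sum_nonneg fun A _ => Finset.sum_nonneg fun B _ => ?_
    split_ifs
    · exact mul_nonneg (h1.1 A) (h2.1 B)
    · exact le_rfl
  · have h := pf6_sum op w1 w2 (fun _ => 1)
    simp only [mul_one] at h
    rw [h]
    have h3 : ∀ A, ∑ B, w1 A * w2 B = w1 A := by
      intro A
      rw [← Finset.mul_sum, h2.2, mul_one]
    simp only [h3]
    exact h1.2

theorem fr6_eq (w : Finset V → ℝ) (x : V) : fr w x = ∑ A, w A * (if x ∈ A then 1 else 0) := by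
  unfold fr
  rw [Finset.sum_filter]
  refine Finset.sum_congr rfl fun A _ => ?_
  split_ifs <;> simp

theorem fr6_nonneg {w : Finset V → ℝ} (h : PW w) (x : V) : 0 ≤ fr w x :=
  Finset.sum_nonneg fun A _ => h.1 A

theorem fr6_sdiff {α β : Finset V → ℝ} (hβ : PW β) (x : V) :
    fr (pf6 (fun A B => A \ B) α β) x = fr α x * (1 - fr β x) := by
  have e : 1 - fr β x = ∑ B, β B * (1 - if x ∈ B then 1 else 0) := by
    simp only [mul_sub, mul_one, Finset.sum_sub_distrib]
    rw [hβ.2, fr6_eq β]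
  rw [e, fr6_eq, pf6_sum, fr6_eq α, Finset.sum_mul]
  refine Finset.sum_congr rfl fun A _ => ?_
  rw [Finset.mul_sum]
  refine Finset.sum_congr rfl fun B _ => ?_
  by_cases hA : x ∈ A
  · by_cases hB : x ∈ B
    · have h1 : x ∉ A \ B := fun h => (Finset.mem_sdiff.1 h).2 hB
      rw [if_pos hA, if_pos hB, if_neg h1]
      ring
    · have h1 : x ∈ A \ B := Finset.mem_sdiff.2 ⟨hA, hB⟩
      rw [if_pos hA, if_neg hB, if_pos h1]
      ring
  · have h1 : x ∉ A \ B := fun h => hA (Finset.mem_sdiff.1 h).1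
    rw [if_neg hA, if_neg h1]
    ring

theorem fr6_inter (α β : Finset V → ℝ) (x : V) :
    fr (pf6 (fun A B => A ∩ B) α β) x = fr α x * fr β x := by
  rw [fr6_eq, pf6_sum, fr6_eq α, fr6_eq β, Finset.sum_mul]
  refine Finset.sum_congr rfl fun A _ => ?_
  rw [Finset.mul_sum]
  refine Finset.sum_congr rfl fun B _ => ?_
  by_cases hA : x ∈ A
  · by_cases hB : x ∈ B
    · have h1 : x ∈ A ∩ B := Finset.mem_inter.2 ⟨hA, hB⟩
      rw [if_pos hA, if_pos hB, if_pos h1]
      ring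
    · have h1 : x ∉ A ∩ B := fun h => hB (Finset.mem_inter.1 h).2
      rw [if_pos hA, if_neg hB, if_neg h1]
      ring
  · have h1 : x ∉ A ∩ B := fun h => hA (Finset.mem_inter.1 h).1
    rw [if_neg hA, if_neg h1]
    ring

theorem low6_inter {ν : Finset V → ℝ} {M l : ℝ} (hν : NA ν) (hM : ∀ A, |ν A| ≤ M)
    {A B : Finset V} (hA : M - l ≤ ν A) (hB : M - l ≤ ν B) : M - (2 * l + 2) ≤ ν (A ∩ B) := by
  have h1 := hν A (B \ A) Finset.disjoint_sdiff
  rw [Finset.union_sdiff_self_eq_union] at h1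
  have h2 := hν (A ∩ B) (B \ A) (by
    rw [Finset.disjoint_left]
    intro x hx hx'
    exact (Finset.mem_sdiff.1 hx').2 (Finset.mem_inter.1 hx).1)
  have h3 : A ∩ B ∪ B \ A = B := by
    rw [Finset.inter_comm, Finset.union_comm]
    exact Finset.sdiff_union_inter B A
  rw [h3] at h2
  have h4 := (abs_le.1 (hM (A ∪ B))).2
  have h5 := (abs_le.1 h1).1
  have h6 := (abs_le.1 h2).2
  have h7 := (abs_le.1 h1).2
  linarith

theorem low6_sdiff {ν : Finset V → ℝ} {M : ℝ} (hν : NA ν) (hM : ∀ A, |ν A| ≤ M)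
    {A B : Finset V} (hA : ν A = M) (hB : ν B = -M) : M - 2 ≤ ν (A \ B) := by
  have h1 := hν (A \ B) (A ∩ B) (by
    rw [Finset.disjoint_left]
    intro x hx hx'
    exact (Finset.mem_sdiff.1 hx).2 (Finset.mem_inter.1 hx').2)
  rw [Finset.sdiff_union_inter] at h1
  have h2 := hν (A ∩ B) (B \ A) (by
    rw [Finset.disjoint_left]
    intro x hx hx'
    exact (Finset.mem_sdiff.1 hx').2 (Finset.mem_inter.1 hx).1)
  have h3 : A ∩ B ∪ B \ A = B := by
    rw [Finset.inter_comm, Finset.union_comm]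
    exact Finset.sdiff_union_inter B A
  rw [h3] at h2
  have h4 := (abs_le.1 (hM (B \ A))).1
  have h5 := (abs_le.1 h1).2
  have h6 := (abs_le.1 h2).1
  linarith

end

theorem l6 : Low := by
  intro V _ _ ν α β M hν hM hα hβ hαM hβM hfr
  have hw1 := pf6_pw (fun A B => A \ B) hα hβ
  have hv1 : ∀ C, pf6 (fun A B => A \ B) α β C ≠ 0 → M - 2 ≤ ν C := by
    intro C hC
    obtain ⟨A, B, hA, hB, rfl⟩ := pf6_ne hC
    exact low6_sdiff hν hM (hαM A hA) (hβM B hB)
  have hf1 : ∀ x, fr (pf6 (fun A B => A \ B) α β) x ≤ 1 / 4 := by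
    intro x
    rw [fr6_sdiff hβ]
    have h1 := hfr x
    have h2 := fr6_nonneg hα x
    nlinarith [sq_nonneg (fr α x - 1 / 2)]
  set w1 := pf6 (fun A B => A \ B) α β with hw1d
  have hw2 := pf6_pw (fun A B => A ∩ B) hw1 hw1
  have hv2 : ∀ C, pf6 (fun A B => A ∩ B) w1 w1 C ≠ 0 → M - 6 ≤ ν C := by
    intro C hC
    obtain ⟨A, B, hA, hB, rfl⟩ := pf6_ne hC
    have := low6_inter hν hM (hv1 A hA) (hv1 B hB)
    linarith
  have hf2 : ∀ x, fr (pf6 (fun A B => A ∩ B) w1 w1) x ≤ 1 / 16 := by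
    intro x
    rw [fr6_inter]
    have h1 := hf1 x
    have h2 := fr6_nonneg hw1 x
    nlinarith
  set w2 := pf6 (fun A B => A ∩ B) w1 w1 with hw2d
  have hw3 := pf6_pw (fun A B => A ∩ B) hw2 hw2
  refine ⟨pf6 (fun A B => A ∩ B) w2 w2, hw3, ?_, ?_⟩
  · intro C hC
    obtain ⟨A, B, hA, hB, rfl⟩ := pf6_ne hC
    have := low6_inter hν hM (hv2 A hA) (hv2 B hB)
    linarith
  · intro x
    rw [fr6_inter]
    have h1 := hf2 x
    have h2 := fr6_nonneg hw2 x
    nlinarith

end Pool.Agent.N4.KR
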