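import Pool.Agent.N4.KR.Stm

/-!
# Leaf 7: a best additive approximation exists (helper67)
-/

set_option autoImplicit false

namespace Pool.Agent.N4.KR

open Finset

namespace L7

/-- the additive set function with the values `μ` on the points -/
noncomputable def L (V : Type) [Fintype V] [DecidableEq V] : (V → ℝ) →ₗ[ℝ] (Finset V → ℝ) where
  toFun μ A := ∑ x ∈ A, μ x
  map_add' μ ν := by
    funext A
    simp [Finset.sum_add_distrib]
  map_smul' c μ := by
    funext A
    simp [Finset.mul_sum]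

theorem L_apply {V : Type} [Fintype V] [DecidableEq V] (μ : V → ℝ) (A : Finset V) :
    L V μ A = ∑ x ∈ A, μ x := rfl

end L7

theorem l7 : Best := by
  intro V _ _ u
  have hcl : IsClosed ((LinearMap.range (L7.L V) : Submodule ℝ (Finset V → ℝ)) : Set (Finset V → ℝ)) :=
    Submodule.closed_of_finiteDimensional _
  obtain ⟨y, hy, hd⟩ := hcl.exists_infDist_eq_dist ⟨0, Submodule.zero_mem _⟩ u
  obtain ⟨μ, rfl⟩ := LinearMap.mem_range.1 hy
  refine ⟨μ, dist u (L7.L V μ), ?_, ?_⟩
  · intro A
    rw [dist_eq_norm, ← L7.L_apply, ← Pi.sub_apply, ← Real.norm_eq_abs]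
    exact norm_le_pi_norm _ A
  · intro μ' M' h
    have h0 : 0 ≤ M' := le_trans (abs_nonneg _) (h ∅)
    rw [← hd]
    refine le_trans (Metric.infDist_le_dist_of_mem (LinearMap.mem_range.2 ⟨μ', rfl⟩)) ?_
    rw [dist_eq_norm, pi_norm_le_iff_of_nonneg h0]
    intro A
    rw [Real.norm_eq_abs, Pi.sub_apply, L7.L_apply]
    exact h A

end Pool.Agent.N4.KR
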