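import Pool.Agent.N4.KR.Stm

/-! Project KR, leaf 8 (helper622): the optimality condition for a best approximation. -/

set_option autoImplicit false

namespace Pool.Agent.N4.KR

open Finset Filter Topology

namespace L8

/-- the indicator vector -/
noncomputable def ind {V : Type} [DecidableEq V] (A : Finset V) (x : V) : ℝ := if x ∈ A then 1 else 0

/-- the extremal vectors -/
def Z {V : Type} [DecidableEq V] (ν : Finset V → ℝ) (M : ℝ) : Set (V → ℝ) :=
  {v | (∃ A, ν A = M ∧ v = ind A) ∨ ∃ B, ν B = -M ∧ v = - ind B}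

theorem Z_finite {V : Type} [Fintype V] [DecidableEq V] (ν : Finset V → ℝ) (M : ℝ) :
    (Z ν M).Finite := by
  refine ((Set.finite_range (fun A : Finset V => ind A)).union
    (Set.finite_range (fun A : Finset V => - ind A))).subset ?_
  rintro v (⟨A, _, rfl⟩ | ⟨A, _, rfl⟩)
  · exact Or.inl ⟨A, rfl⟩
  · exact Or.inr ⟨A, rfl⟩

theorem sep {V : Type} [Fintype V] [DecidableEq V] (ν : Finset V → ℝ) (M : ℝ)
    (hM : ∀ A, |ν A| ≤ M)
    (hopt : ∀ (η : V → ℝ) (M' : ℝ), (∀ A, |ν A - ∑ x ∈ A, η x| ≤ M') → M ≤ M') :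
    (0 : V → ℝ) ∈ convexHull ℝ (Z ν M) := by
  classical
  by_contra hcon
  have hcl : IsClosed (convexHull ℝ (Z ν M)) := (Z_finite ν M).isClosed_convexHull ℝ
  obtain ⟨f, c, hf0, hfZ⟩ := geometric_hahn_banach_point_closed (convex_convexHull ℝ (Z ν M)) hcl hcon
  rw [map_zero] at hf0
  obtain ⟨η, hη⟩ : ∃ η : V → ℝ, η = fun x => f (Pi.single x 1) := ⟨_, rfl⟩
  have hfA : ∀ A : Finset V, f (ind A) = ∑ x ∈ A, η x := by
    intro A
    have h1 : ind A = ∑ x ∈ A, Pi.single x (1 : ℝ) := by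
      funext y
      rw [Finset.sum_apply]
      simp [ind, Pi.single_apply]
    rw [h1, map_sum, hη]
  have hP : ∀ A, ν A = M → 0 < ∑ x ∈ A, η x := by
    intro A hA
    rw [← hfA]
    exact hf0.trans (hfZ _ (subset_convexHull ℝ _ (Or.inl ⟨A, hA, rfl⟩)))
  have hQ : ∀ A, ν A = -M → ∑ x ∈ A, η x < 0 := by
    intro A hA
    have h1 := hf0.trans (hfZ _ (subset_convexHull ℝ _ (Or.inr ⟨A, hA, rfl⟩)))
    rw [map_neg, hfA] at h1
    linarith
  have hM0 : 0 < M := by
    have h1 : 0 ≤ M := (abs_nonneg _).trans (hM ∅)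
    rcases h1.eq_or_lt with h2 | h2
    · exfalso
      have h3 := hM ∅
      rw [← h2] at h3
      have h4 : ν ∅ = M := by
        rw [← h2]
        exact abs_eq_zero.1 (le_antisymm h3 (abs_nonneg _))
      have h5 := hP ∅ h4
      rw [Finset.sum_empty] at h5
      exact lt_irrefl _ h5
    · exact h2
  have hev : ∀ A, ∀ᶠ t in 𝓝[>] (0 : ℝ), |ν A - t * ∑ x ∈ A, η x| < M := by
    intro A
    have hcont : Continuous fun t : ℝ => t * ∑ x ∈ A, η x := continuous_id.mul continuous_const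
    have hsmall : ∀ δ : ℝ, 0 < δ → ∀ᶠ t in 𝓝[>] (0 : ℝ), |t * ∑ x ∈ A, η x| < δ := by
      intro δ hδ
      have h1 : Tendsto (fun t : ℝ => |t * ∑ x ∈ A, η x|) (𝓝[>] 0) (𝓝 |(0 : ℝ) * ∑ x ∈ A, η x|) :=
        (hcont.abs.tendsto 0).mono_left nhdsWithin_le_nhds
      rw [zero_mul, abs_zero] at h1
      exact h1.eventually (gt_mem_nhds hδ)
    have hpos : ∀ᶠ t in 𝓝[>] (0 : ℝ), 0 < t := eventually_mem_nhdsWithin
    rcases (hM A).lt_or_eq with h | h
    · filter_upwards [hsmall (M - |ν A|) (by linarith)] with t ht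
      have h1 := abs_sub (ν A) (t * ∑ x ∈ A, η x)
      linarith
    · rcases (abs_eq hM0.le).1 h with h1 | h1
      · filter_upwards [hsmall M hM0, hpos] with t ht ht0
        have h2 := mul_pos ht0 (hP A h1)
        rw [abs_of_pos h2] at ht
        rw [h1, abs_lt]
        constructor <;> linarith
      · filter_upwards [hsmall M hM0, hpos] with t ht ht0
        have h2 := mul_neg_of_pos_of_neg ht0 (hQ A h1)
        rw [abs_of_neg h2] at ht
        rw [h1, abs_lt]
        constructor <;> linarith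
  obtain ⟨t, ht⟩ := (eventually_all.2 hev).exists
  have hne : (univ : Finset (Finset V)).Nonempty := ⟨∅, mem_univ _⟩
  have h1 := hopt (fun x => t * η x) (univ.sup' hne fun A => |ν A - t * ∑ x ∈ A, η x|) (fun A => by
    rw [← Finset.mul_sum]
    exact Finset.le_sup' (fun A => |ν A - t * ∑ x ∈ A, η x|) (mem_univ A))
  have h2 : (univ.sup' hne fun A => |ν A - t * ∑ x ∈ A, η x|) < M :=
    (Finset.sup'_lt_iff hne).2 fun A _ => ht A
  linarith

end L8

open L8 in
theorem l8 : Opt := by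
  intro V _ _ u μ M hM hopt
  classical
  obtain ⟨ν, hν⟩ : ∃ ν : Finset V → ℝ, ν = fun A => u A - ∑ x ∈ A, μ x := ⟨_, rfl⟩
  have hνA : ∀ A, u A - ∑ x ∈ A, μ x = ν A := fun A => by rw [hν]
  simp only [hνA] at hM ⊢
  have h0 := sep ν M hM (fun η M' h => hopt (fun x => μ x + η x) M' fun A => by
    rw [Finset.sum_add_distrib, ← sub_sub, hνA]
    exact h A)
  rw [_root_.convexHull_eq] at h0
  obtain ⟨ι, t, w, z, hw0, hw1, hz, hzc⟩ := h0
  rw [Finset.centerMass_eq_of_sum_1 _ _ hw1] at hzc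
  have hk' : ∀ i, ∃ s : Bool × Finset V, i ∈ t → (s.1 = true ∧ ν s.2 = M ∧ z i = ind s.2) ∨
      (s.1 = false ∧ ν s.2 = -M ∧ z i = - ind s.2) := by
    intro i
    by_cases hi : i ∈ t
    · rcases hz i hi with ⟨A, hA, hzA⟩ | ⟨A, hA, hzA⟩
      · exact ⟨(true, A), fun _ => Or.inl ⟨rfl, hA, hzA⟩⟩
      · exact ⟨(false, A), fun _ => Or.inr ⟨rfl, hA, hzA⟩⟩
    · exact ⟨(true, ∅), fun h => absurd h hi⟩
  choose k hk using hk'
  obtain ⟨W, hW⟩ : ∃ W : Bool × Finset V → ℝ, W = fun s => ∑ i ∈ t.filter (fun i => k i = s), w i :=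
    ⟨_, rfl⟩
  have hWnn : ∀ s, 0 ≤ W s := by
    intro s
    rw [hW]
    exact Finset.sum_nonneg fun i hi => hw0 i (mem_filter.1 hi).1
  have hWne : ∀ s, W s ≠ 0 → ∃ i ∈ t, k i = s := by
    intro s hs
    by_contra hcon
    push Not at hcon
    apply hs
    rw [hW]
    refine Finset.sum_eq_zero fun i hi => ?_
    exact absurd (mem_filter.1 hi).2 (hcon i (mem_filter.1 hi).1)
  have hfib : ∀ g : Bool × Finset V → ℝ, ∑ s, W s * g s = ∑ i ∈ t, w i * g (k i) := by
    intro g
    rw [← Finset.sum_fiberwise t k (fun i => w i * g (k i))]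
    refine Finset.sum_congr rfl fun s _ => ?_
    rw [hW, Finset.sum_mul]
    refine Finset.sum_congr rfl fun i hi => ?_
    rw [(mem_filter.1 hi).2]
  refine ⟨fun A => W (true, A), fun A => W (false, A), fun A => hWnn _, fun A => hWnn _, ?_, ?_, ?_, ?_⟩
  · have h1 := hfib (fun _ => 1)
    simp only [mul_one] at h1
    rw [hw1, Fintype.sum_prod_type, Fintype.sum_bool] at h1
    exact h1
  · intro A hA
    obtain ⟨i, hi, hki⟩ := hWne _ hA
    rcases hk i hi with h | h
    · rw [hki] at h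
      exact h.2.1
    · rw [hki] at h
      exact absurd h.1 (by simp)
  · intro A hA
    obtain ⟨i, hi, hki⟩ := hWne _ hA
    rcases hk i hi with h | h
    · rw [hki] at h
      exact absurd h.1 (by simp)
    · rw [hki] at h
      exact h.2.1
  · intro x
    have h1 := hfib (fun s => if s.1 = true then ind s.2 x else - ind s.2 x)
    have h2 : ∑ i ∈ t, w i * (if (k i).1 = true then ind (k i).2 x else - ind (k i).2 x) = 0 := by
      have h3 := congrFun hzc x
      rw [Finset.sum_apply, Pi.zero_apply] at h3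
      rw [← h3]
      refine Finset.sum_congr rfl fun i hi => ?_
      rw [Pi.smul_apply, smul_eq_mul]
      rcases hk i hi with h | h
      · rw [if_pos h.1, h.2.2]
      · rw [if_neg (by rw [h.1]; simp), h.2.2, Pi.neg_apply]
    rw [h2, Fintype.sum_prod_type, Fintype.sum_bool] at h1
    have h4 : ∀ v : Finset V → ℝ, fr v x = ∑ A, v A * ind A x := by
      intro v
      unfold fr
      rw [Finset.sum_filter]
      refine Finset.sum_congr rfl fun A _ => ?_
      unfold ind
      split_ifs <;> simp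
    rw [h4, h4]
    simp only [if_true, mul_neg, Finset.sum_neg_distrib, Bool.false_eq_true, if_false] at h1
    linarith

end Pool.Agent.N4.KR
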