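import Pool.Agent.R647.AF.Fin

/-!
# Near-additive set functions and an approximate F-conjecture with an absolute constant

Statements of the steps.
-/

set_option autoImplicit false

namespace Pool.Agent.N4.KR

open Finset

/-- Additive up to an error of one on disjoint sets. -/
def NA {V : Type} [Fintype V] [DecidableEq V] (u : Finset V → ℝ) : Prop :=
  ∀ A B : Finset V, Disjoint A B → |u (A ∪ B) - u A - u B| ≤ 1

/-- The frequency of a point. -/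
def fr {V : Type} [Fintype V] [DecidableEq V] (w : Finset V → ℝ) (x : V) : ℝ :=
  ∑ A ∈ univ.filter (fun A : Finset V => x ∈ A), w A

/-- Probability weights on the subsets. -/
def PW {V : Type} [Fintype V] [DecidableEq V] (w : Finset V → ℝ) : Prop :=
  (∀ A, 0 ≤ w A) ∧ ∑ A, w A = 1

/-- Leaf 1. -/
def Count : Prop := ∀ (N p : ℕ) (S : Finset (Fin N)) (T : Finset (Fin p)),
  ((univ : Finset (Fin N → Fin 3 → Fin p)).filter (fun e => ∀ i ∈ S, ∀ t, e i t ∈ T)).card =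
    T.card ^ (3 * S.card) * p ^ (3 * (N - S.card))

/-- Leaf 2. -/
def Num : Prop := ∀ p k : ℕ, 1 ≤ k → 54 * k ≤ p →
  (2 * p).choose k * p.choose k * k ^ (3 * k) * 3 ^ k ≤ p ^ (3 * k)

/-- Leaf 3: concentrators. -/
def Conc : Prop := ∀ p : ℕ, ∃ e : Fin (2 * p) → Fin 3 → Fin p, ∀ S : Finset (Fin (2 * p)),
  54 * S.card ≤ p → S.card ≤ (S.biUnion (fun i => univ.image (e i))).card

/-- Leaf 4: the distribution of a family of sets over half as many sets. -/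
def Core : Prop := ∀ (V : Type) [Fintype V] [DecidableEq V] (ν : Finset V → ℝ) (M l : ℝ) (p : ℕ)
  (C : Fin (2 * p) → Finset V), NA ν → (∀ A, |ν A| ≤ M) → 0 < p → (∀ i, M - l ≤ ν (C i)) →
    (∀ x : V, 54 * (univ.filter (fun i => x ∈ C i)).card ≤ p) → M ≤ 2 * l + 10

/-- Leaf 5: the same with real weights. -/
def Wts : Prop := ∀ (V : Type) [Fintype V] [DecidableEq V] (ν w : Finset V → ℝ) (M l : ℝ),
  NA ν → (∀ A, |ν A| ≤ M) → PW w → (∀ A, w A ≠ 0 → M - l ≤ ν A) → (∀ x, fr w x ≤ 1 / 256) →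
    M ≤ 2 * l + 10

/-- Leaf 6: low frequencies. -/
def Low : Prop := ∀ (V : Type) [Fintype V] [DecidableEq V] (ν α β : Finset V → ℝ) (M : ℝ),
  NA ν → (∀ A, |ν A| ≤ M) → PW α → PW β → (∀ A, α A ≠ 0 → ν A = M) →
    (∀ A, β A ≠ 0 → ν A = -M) → (∀ x, fr α x ≤ fr β x) →
    ∃ w : Finset V → ℝ, PW w ∧ (∀ A, w A ≠ 0 → M - 14 ≤ ν A) ∧ ∀ x, fr w x ≤ 1 / 256

/-- Leaf 7: a best approximation exists. -/
def Best : Prop := ∀ (V : Type) [Fintype V] [DecidableEq V] (u : Finset V → ℝ),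
  ∃ (μ : V → ℝ) (M : ℝ), (∀ A, |u A - ∑ x ∈ A, μ x| ≤ M) ∧
    ∀ (μ' : V → ℝ) (M' : ℝ), (∀ A, |u A - ∑ x ∈ A, μ' x| ≤ M') → M ≤ M'

/-- Leaf 8: the optimality condition for a best approximation. -/
def Opt : Prop := ∀ (V : Type) [Fintype V] [DecidableEq V] (u : Finset V → ℝ) (μ : V → ℝ) (M : ℝ),
  (∀ A, |u A - ∑ x ∈ A, μ x| ≤ M) →
    (∀ (μ' : V → ℝ) (M' : ℝ), (∀ A, |u A - ∑ x ∈ A, μ' x| ≤ M') → M ≤ M') →
    ∃ α β : Finset V → ℝ, (∀ A, 0 ≤ α A) ∧ (∀ A, 0 ≤ β A) ∧ ∑ A, α A + ∑ A, β A = 1 ∧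
      (∀ A, α A ≠ 0 → u A - ∑ x ∈ A, μ x = M) ∧ (∀ A, β A ≠ 0 → u A - ∑ x ∈ A, μ x = -M) ∧
      ∀ x, fr α x = fr β x

/-- The theorem of Kalton and Roberts. -/
def KalRob : Prop := ∀ (V : Type) [Fintype V] [DecidableEq V] (u : Finset V → ℝ), NA u →
  ∃ μ : V → ℝ, ∀ A, |u A - ∑ x ∈ A, μ x| ≤ 38

/-- Leaf 9: the theorem of Kalton and Roberts from the steps. -/
def Leaf9 : Prop := Wts → Low → Best → Opt → KalRob

/-- The value of a cut. -/
def cut {V : Type} [Fintype V] [DecidableEq V] (G : V → V → ℝ) (A : Finset V) : ℝ :=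
  ∑ i ∈ A, ∑ j ∈ Aᶜ, G i j

/-- Leaf 10: an asymmetric cut function. -/
def Half : Prop := KalRob → ∀ (V : Type) [Fintype V] [DecidableEq V] (f : Finset V → ℝ),
  R647.AF.Sym f → (∀ A B C : Finset V, Disjoint A B → Disjoint A C → Disjoint B C →
    |R647.AF.T f A B C| ≤ 1) →
  ∃ μ : V → V → ℝ, ∀ A : Finset V, |2 * f A - cut μ A| ≤ 114 * A.card

/-- Leaf 11: a symmetric cut function. -/
def Symm : Prop := ∀ (V : Type) [Fintype V] [DecidableEq V] (f : Finset V → ℝ) (μ : V → V → ℝ)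
  (K : ℝ), 4 ≤ Fintype.card V → R647.AF.Sym f → (∀ A : Finset V, |2 * f A - cut μ A| ≤ 3 * K * A.card) →
  ∃ G : V → V → ℝ, (∀ i j, G i j = G j i) ∧ ∀ A : Finset V, A.Nonempty →
    |f A - cut G A| ≤ 9 / 2 * K * A.card - 3 * K

/-- Leaf 12: exact on the singletons. -/
def Single : Prop := ∀ (V : Type) [Fintype V] [DecidableEq V] (f : Finset V → ℝ) (G : V → V → ℝ)
  (K : ℝ), 4 ≤ Fintype.card V → (∀ i j, G i j = G j i) →
  (∀ A : Finset V, A.Nonempty → |f A - cut G A| ≤ 9 / 2 * K * A.card - 3 * K) →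
  ∃ H : V → V → ℝ, (∀ i j, H i j = H j i) ∧ (∀ i, cut H {i} = f {i}) ∧
    ∀ A : Finset V, 2 ≤ A.card → |f A - cut H A| ≤ 19 / 2 * K * A.card

/-- Leaf 13: the gauge. -/
def Gauge : Prop := KalRob → Half → Symm → Single → ∀ (V : Type) [Fintype V] [DecidableEq V]
  (c : Finset V → ℝ) (o : V) (a b : ℝ), R647.AF.Sym c → a ≤ b → 4 ≤ Fintype.card V →
  (∀ X Y Z : Finset V, X.Nonempty → Y.Nonempty → Z.Nonempty → Disjoint X Y → Disjoint X Z →
    Disjoint Y Z → o ∉ X → o ∉ Y → o ∉ Z → a ≤ R647.AF.T c X Y Z ∧ R647.AF.T c X Y Z ≤ b) →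
  ∃ G : V → V → ℝ, (∀ i j, G i j = G j i) ∧ (∀ i, c {i} + cut G {i} = 0) ∧
    ∀ S : Finset V, ((a + b) / 2 - 1083 * (b - a)) * R647.AF.kap S ≤ c S + cut G S

end Pool.Agent.N4.KR
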