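import Pool.Agent.N4.KR.Stm

/-!
# Near-additive set functions: the steps with better constants
-/

set_option autoImplicit false

namespace Pool.Agent.N4.KR

open Finset

/-- Leaf V1. -/
def Count2 : Prop := ∀ (N p : ℕ) (S : Finset (Fin N)) (T : Finset (Fin p)),
  ((univ : Finset (Fin N → Fin 4 → Fin p)).filter (fun e => ∀ i ∈ S, ∀ t, e i t ∈ T)).card =
    T.card ^ (4 * S.card) * p ^ (4 * (N - S.card))

/-- Leaf V2. -/
def Num2 : Prop := ∀ p k : ℕ, 1 ≤ k → 21 * k ≤ 2 * p →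
  (6 * p).choose k * p.choose k * k ^ (4 * k) * 49 ^ k ≤ 24 ^ k * p ^ (4 * k)

/-- Leaf V3: concentrators. -/
def Conc2 : Prop := ∀ p : ℕ, ∃ e : Fin (6 * p) → Fin 4 → Fin p, ∀ S : Finset (Fin (6 * p)),
  21 * S.card ≤ 2 * p → S.card ≤ (S.biUnion (fun i => univ.image (e i))).card

/-- Leaf V4: the distribution of a family of sets over a sixth as many sets. -/
def Core2 : Prop := ∀ (V : Type) [Fintype V] [DecidableEq V] (ν : Finset V → ℝ) (M l : ℝ) (p : ℕ)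
  (C : Fin (6 * p) → Finset V), NA ν → (∀ A, |ν A| ≤ M) → 1 ≤ M → 0 < p →
    (∀ i, M - l ≤ ν (C i)) →
    (∀ x : V, 21 * (univ.filter (fun i => x ∈ C i)).card ≤ 2 * p) → 5 * M ≤ 6 * l + 41

/-- Leaf V5: the same with real weights. -/
def Wts2 : Prop := ∀ (V : Type) [Fintype V] [DecidableEq V] (ν w : Finset V → ℝ) (M l : ℝ),
  NA ν → (∀ A, |ν A| ≤ M) → 1 ≤ M → PW w → (∀ A, w A ≠ 0 → M - l ≤ ν A) →
    (∀ x, fr w x ≤ 1 / 64) → 5 * M ≤ 6 * l + 41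

/-- Leaf V6: low frequencies. -/
def Low2 : Prop := ∀ (V : Type) [Fintype V] [DecidableEq V] (ν α β : Finset V → ℝ) (M : ℝ),
  NA ν → (∀ A, |ν A| ≤ M) → PW α → PW β → (∀ A, α A ≠ 0 → ν A = M) →
    (∀ A, β A ≠ 0 → ν A = -M) → (∀ x, fr α x ≤ fr β x) →
    ∃ w : Finset V → ℝ, PW w ∧ (∀ A, w A ≠ 0 → M - 10 ≤ ν A) ∧ ∀ x, fr w x ≤ 1 / 64

/-- The theorem of Kalton and Roberts, with the constant `20.2`. -/
def KalRob2 : Prop := ∀ (V : Type) [Fintype V] [DecidableEq V] (u : Finset V → ℝ), NA u →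
  ∃ μ : V → ℝ, ∀ A, |u A - ∑ x ∈ A, μ x| ≤ 101 / 5

/-- Leaf V7: the theorem of Kalton and Roberts from the steps. -/
def Leaf7 : Prop := Wts2 → Low2 → Best → Opt → KalRob2

/-- The interaction with one element is additive up to `K`. -/
def Near {V : Type} [Fintype V] [DecidableEq V] (f : Finset V → ℝ) (μ : V → V → ℝ) (K : ℝ) :
    Prop := ∀ (z : V) (X : Finset V), z ∉ X → |f X + f {z} - f (insert z X) - ∑ x ∈ X, μ z x| ≤ K

/-- Leaf W1. -/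
def NearStm : Prop := KalRob2 → ∀ (V : Type) [Fintype V] [DecidableEq V] (f : Finset V → ℝ),
  (∀ A B C : Finset V, Disjoint A B → Disjoint A C → Disjoint B C →
    |R647.AF.T f A B C| ≤ 1) →
  ∃ μ : V → V → ℝ, (∀ z, μ z z = 0) ∧ Near f μ (101 / 5)

/-- Leaf W2: telescoping along a key. -/
def Tele : Prop := ∀ (V : Type) [Fintype V] [DecidableEq V] (f : Finset V → ℝ) (μ : V → V → ℝ)
  (K : ℝ) (k : V → ℕ), Near f μ K → Function.Injective k → ∀ A : Finset V, A.Nonempty →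
    |f A - ∑ a ∈ A, f {a} + ∑ a ∈ A, ∑ c ∈ A.filter (fun c => k c < k a), μ a c| ≤
      K * (A.card - 1)

/-- Leaf W3: the antisymmetric part. -/
def Theta : Prop := Tele → ∀ (V : Type) [Fintype V] [DecidableEq V] (f : Finset V → ℝ)
  (μ : V → V → ℝ) (K : ℝ), Near f μ K → 1 ≤ Fintype.card V → ∀ A : Finset V,
    |∑ a ∈ A, ∑ c ∈ Aᶜ, (μ a c - μ c a)| ≤ 2 * K * (Fintype.card V - 1)

/-- Leaf W4: the symmetric part. -/
def Pairs : Prop := Tele → ∀ (V : Type) [Fintype V] [DecidableEq V] (f : Finset V → ℝ)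
  (μ : V → V → ℝ) (K : ℝ), (∀ z, μ z z = 0) → Near f μ K → ∀ A : Finset V, A.Nonempty →
    |f A - ∑ a ∈ A, f {a} + (1 / 2) * ∑ a ∈ A, ∑ c ∈ A, μ a c| ≤ K * (A.card - 1)

/-- Leaf W5: the symmetric weights. -/
def Weights : Prop := ∀ (V : Type) [Fintype V] [DecidableEq V] (f : Finset V → ℝ)
  (μ : V → V → ℝ) (K : ℝ), 3 ≤ Fintype.card V → (∀ z, μ z z = 0) →
  (∀ z, |2 * f {z} - ∑ x, μ z x| ≤ K) →
  (∀ A : Finset V, |∑ a ∈ A, ∑ c ∈ Aᶜ, (μ a c - μ c a)| ≤ 2 * K * (Fintype.card V - 1)) →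
  (∀ A : Finset V, A.Nonempty →
    |f A - ∑ a ∈ A, f {a} + (1 / 2) * ∑ a ∈ A, ∑ c ∈ A, μ a c| ≤ K * (A.card - 1)) →
  ∃ H : V → V → ℝ, (∀ i j, H i j = H j i) ∧ (∀ i, cut H {i} = f {i}) ∧
    ∀ A : Finset V, 1 ≤ A.card → 2 * A.card ≤ Fintype.card V →
      |f A - cut H A| * (Fintype.card V - 2) ≤ K * ((A.card : ℝ) - 1) *
        ((2 * Fintype.card V - 3 + A.card) +
          A.card * (Fintype.card V - 2 * A.card) / (2 * (Fintype.card V - 1)))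

/-- Leaf W6: the approximation by cut functions. -/
def Cut2 : Prop := KalRob2 → NearStm → Tele → Theta → Pairs → Weights →
  ∀ (V : Type) [Fintype V] [DecidableEq V] (f : Finset V → ℝ), 200 ≤ Fintype.card V →
  R647.AF.Sym f → (∀ A B C : Finset V, Disjoint A B → Disjoint A C → Disjoint B C →
    |R647.AF.T f A B C| ≤ 1) →
  ∃ H : V → V → ℝ, (∀ i j, H i j = H j i) ∧ (∀ i, cut H {i} = f {i}) ∧
    ∀ A : Finset V, |f A - cut H A| ≤ 103 * R647.AF.kap A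

/-- Leaf W7: the gauge. -/
def Gauge2 : Prop := (∀ (V : Type) [Fintype V] [DecidableEq V] (f : Finset V → ℝ),
    200 ≤ Fintype.card V → R647.AF.Sym f → (∀ A B C : Finset V, Disjoint A B → Disjoint A C →
      Disjoint B C → |R647.AF.T f A B C| ≤ 1) →
    ∃ H : V → V → ℝ, (∀ i j, H i j = H j i) ∧ (∀ i, cut H {i} = f {i}) ∧
      ∀ A : Finset V, |f A - cut H A| ≤ 103 * R647.AF.kap A) →
  ∀ (V : Type) [Fintype V] [DecidableEq V] (c : Finset V → ℝ) (o : V) (a b : ℝ),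
  R647.AF.Sym c → a ≤ b → 4 ≤ Fintype.card V →
  (∀ X Y Z : Finset V, X.Nonempty → Y.Nonempty → Z.Nonempty → Disjoint X Y → Disjoint X Z →
    Disjoint Y Z → o ∉ X → o ∉ Y → o ∉ Z → a ≤ R647.AF.T c X Y Z ∧ R647.AF.T c X Y Z ≤ b) →
  ∃ G : V → V → ℝ, (∀ i j, G i j = G j i) ∧ (∀ i, c {i} + cut G {i} = 0) ∧
    ∀ S : Finset V, (a - min (3 * √(Fintype.card V)) 51 * (b - a)) * R647.AF.kap S ≤
      c S + cut G S

end Pool.Agent.N4.KR
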