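import Pool.Agent.N4.KR.Stm2

/-!
# Leaf V1: the number of maps with prescribed values on a set, four values for each element (helper806)
-/

set_option autoImplicit false

namespace Pool.Agent.N4.KR

open Finset

theorem v1 : Count2 := by
  intro N p S T
  classical
  have hEq : ((univ : Finset (Fin N → Fin 4 → Fin p)).filter
      (fun e => ∀ i ∈ S, ∀ t, e i t ∈ T)) =
      Fintype.piFinset (fun i : Fin N =>
        Fintype.piFinset (fun _ : Fin 4 => if i ∈ S then T else (univ : Finset (Fin p)))) := by
    ext e
    simp only [mem_filter, mem_univ, true_and, Fintype.mem_piFinset]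
    constructor
    · intro h i t
      by_cases hi : i ∈ S
      · rw [if_pos hi]
        exact h i hi t
      · rw [if_neg hi]
        exact mem_univ _
    · intro h i hi t
      have := h i t
      rwa [if_pos hi] at this
  rw [hEq, Fintype.card_piFinset]
  have hc : ∀ i : Fin N, (Fintype.piFinset (fun _ : Fin 4 =>
      if i ∈ S then T else (univ : Finset (Fin p)))).card =
      if i ∈ S then T.card ^ 4 else p ^ 4 := by
    intro i
    rw [Fintype.card_piFinset]
    by_cases hi : i ∈ S
    · simp [hi]
    · simp [hi]
  rw [prod_congr rfl (fun i _ => hc i), prod_ite]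
  simp only [prod_const]
  have h1 : (univ.filter (fun x : Fin N => x ∈ S)).card = S.card := by
    congr 1
    ext x
    simp
  have h2 : (univ.filter (fun x : Fin N => x ∉ S)).card = N - S.card := by
    have h3 : univ.filter (fun x : Fin N => x ∉ S) = Sᶜ := by
      ext x
      simp
    rw [h3, card_compl, Fintype.card_fin]
  rw [h1, h2, ← pow_mul, ← pow_mul]

end Pool.Agent.N4.KR
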