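import Pool.Agent.N4.KR.Stm2

/-!
# KR/V2: a numerical inequality, better constants (after L2 of helper624)
-/

set_option autoImplicit false

namespace Pool.Agent.N4.KR

namespace V2

theorem pow_self_le (k : ℕ) : k ^ k ≤ 3 ^ k * k.factorial := by
  have h1 : (k : ℝ) ^ k / (k.factorial : ℝ) ≤ Real.exp k :=
    Real.pow_div_factorial_le_exp (k : ℝ) (Nat.cast_nonneg k) k
  have h2 : Real.exp (k : ℝ) = Real.exp 1 ^ k := by
    rw [← Real.exp_nat_mul, mul_one]
  have h3 : Real.exp 1 ^ k ≤ (3 : ℝ) ^ k :=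
    pow_le_pow_left₀ (Real.exp_pos 1).le (by have := Real.exp_one_lt_d9; linarith) k
  have h4 : (0 : ℝ) < (k.factorial : ℝ) := Nat.cast_pos.2 k.factorial_pos
  have h5 : (k : ℝ) ^ k ≤ 3 ^ k * (k.factorial : ℝ) := by
    rw [h2] at h1
    exact (div_le_iff₀ h4).1 (h1.trans h3)
  exact_mod_cast h5

theorem choose_le' (N k : ℕ) : N.choose k * k ^ k ≤ (3 * N) ^ k := by
  calc N.choose k * k ^ k ≤ N.choose k * (3 ^ k * k.factorial) :=
        Nat.mul_le_mul_left _ (pow_self_le k)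
    _ = 3 ^ k * (k.factorial * N.choose k) := by ring
    _ = 3 ^ k * N.descFactorial k := by rw [Nat.descFactorial_eq_factorial_mul_choose]
    _ ≤ 3 ^ k * N ^ k := Nat.mul_le_mul_left _ (Nat.descFactorial_le_pow N k)
    _ = (3 * N) ^ k := (mul_pow 3 N k).symm

end V2

theorem v2 : Num2 := by
  intro p k hk hp
  have h1 := V2.choose_le' (6 * p) k
  have h2 := V2.choose_le' p k
  calc (6 * p).choose k * p.choose k * k ^ (4 * k) * 49 ^ k
      = ((6 * p).choose k * k ^ k) * (p.choose k * k ^ k) * (k ^ k * k ^ k * 49 ^ k) := by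
        rw [show 4 * k = k + k + k + k by ring, pow_add, pow_add, pow_add]
        ring
    _ ≤ (3 * (6 * p)) ^ k * (3 * p) ^ k * (k ^ k * k ^ k * 49 ^ k) :=
        Nat.mul_le_mul_right _ (Nat.mul_le_mul h1 h2)
    _ = (6 * p ^ 2 * (441 * k ^ 2)) ^ k := by
        rw [← mul_pow, ← mul_pow, ← mul_pow, ← mul_pow]
        congr 1
        ring
    _ ≤ (24 * p ^ 4) ^ k := by
        apply Nat.pow_le_pow_left
        have h3 : (21 * k) ^ 2 ≤ (2 * p) ^ 2 := Nat.pow_le_pow_left hp 2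
        calc 6 * p ^ 2 * (441 * k ^ 2) = 6 * p ^ 2 * (21 * k) ^ 2 := by ring
          _ ≤ 6 * p ^ 2 * (2 * p) ^ 2 := Nat.mul_le_mul_left _ h3
          _ = 24 * p ^ 4 := by ring
    _ = 24 ^ k * p ^ (4 * k) := by rw [mul_pow, ← pow_mul]

end Pool.Agent.N4.KR
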