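import Pool.Agent.N4.KR.Stm2

/-!
# Leaf V3: concentrators by the union bound
-/

set_option autoImplicit false

namespace Pool.Agent.N4.KR

open Finset

theorem V3.geo (m : ℕ) :
    ∑ k ∈ Icc 1 m, ((24 : ℝ) / 49) ^ k = 24 / 25 * (1 - (24 / 49) ^ m) := by
  induction m with
  | zero => simp
  | succ m ih =>
    rw [Finset.sum_Icc_succ_top (by omega), ih, pow_succ]
    ring

theorem V3.sumcard (hC : Count2) (p k : ℕ) :
    ∑ S ∈ powersetCard k (univ : Finset (Fin (6 * p))), ∑ T ∈ powersetCard k (univ : Finset (Fin p)),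
      ((univ : Finset (Fin (6 * p) → Fin 4 → Fin p)).filter
        (fun e => ∀ i ∈ S, ∀ t, e i t ∈ T)).card =
    (6 * p).choose k * (p.choose k * (k ^ (4 * k) * p ^ (4 * (6 * p - k)))) := by
  have h1 : ∀ S ∈ powersetCard k (univ : Finset (Fin (6 * p))),
      ∑ T ∈ powersetCard k (univ : Finset (Fin p)),
      ((univ : Finset (Fin (6 * p) → Fin 4 → Fin p)).filter
        (fun e => ∀ i ∈ S, ∀ t, e i t ∈ T)).card =
      p.choose k * (k ^ (4 * k) * p ^ (4 * (6 * p - k))) := by
    intro S hS
    have h2 : ∀ T ∈ powersetCard k (univ : Finset (Fin p)),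
        ((univ : Finset (Fin (6 * p) → Fin 4 → Fin p)).filter
        (fun e => ∀ i ∈ S, ∀ t, e i t ∈ T)).card = k ^ (4 * k) * p ^ (4 * (6 * p - k)) := by
      intro T hT
      rw [hC (6 * p) p S T, (mem_powersetCard.1 hS).2, (mem_powersetCard.1 hT).2]
    rw [sum_congr rfl h2, sum_const, card_powersetCard, card_univ, Fintype.card_fin, smul_eq_mul]
  rw [sum_congr rfl h1, sum_const, card_powersetCard, card_univ, Fintype.card_fin, smul_eq_mul]

theorem v3 : Count2 → Num2 → Conc2 := by
  intro hC hN p
  rcases Nat.eq_zero_or_pos p with rfl | hp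
  · refine ⟨fun i => Fin.elim0 i, fun S _ => ?_⟩
    have h : S = ∅ := Finset.eq_empty_of_forall_notMem fun i _ => Fin.elim0 i
    subst h
    simp
  · by_contra hcon
    push Not at hcon
    have hcover : (univ : Finset (Fin (6 * p) → Fin 4 → Fin p)) ⊆
        (Icc 1 (2 * p / 21)).biUnion fun k =>
          (powersetCard k (univ : Finset (Fin (6 * p)))).biUnion fun S =>
            (powersetCard k (univ : Finset (Fin p))).biUnion fun T =>
              (univ : Finset (Fin (6 * p) → Fin 4 → Fin p)).filter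
                (fun e => ∀ i ∈ S, ∀ t, e i t ∈ T) := by
      intro e _
      obtain ⟨S, hS1, hS2⟩ := hcon e
      have hk1 : 1 ≤ S.card := by omega
      obtain ⟨T, hT1, hT2⟩ := Finset.exists_superset_card_eq
        (s := S.biUnion (fun i => univ.image (e i))) (n := S.card) hS2.le
        (by rw [Fintype.card_fin]; omega)
      rw [mem_biUnion]
      refine ⟨S.card, ?_, ?_⟩
      · rw [mem_Icc]
        omega
      · rw [mem_biUnion]
        refine ⟨S, ?_, ?_⟩
        · rw [mem_powersetCard]
          exact ⟨subset_univ _, rfl⟩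
        · rw [mem_biUnion]
          refine ⟨T, ?_, ?_⟩
          · rw [mem_powersetCard]
            exact ⟨subset_univ _, hT2⟩
          · rw [mem_filter]
            refine ⟨mem_univ _, fun i hi t => ?_⟩
            apply hT1
            rw [mem_biUnion]
            exact ⟨i, hi, mem_image_of_mem _ (mem_univ t)⟩
    have hcard : (univ : Finset (Fin (6 * p) → Fin 4 → Fin p)).card ≤
        ∑ k ∈ Icc 1 (2 * p / 21),
          (6 * p).choose k * (p.choose k * (k ^ (4 * k) * p ^ (4 * (6 * p - k)))) := by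
      refine (card_le_card hcover).trans (card_biUnion_le.trans (sum_le_sum fun k _ => ?_))
      rw [← V3.sumcard hC p k]
      refine card_biUnion_le.trans (sum_le_sum fun S _ => ?_)
      exact card_biUnion_le
    have huniv : (univ : Finset (Fin (6 * p) → Fin 4 → Fin p)).card = p ^ (4 * (6 * p)) := by
      rw [card_univ, Fintype.card_fun, Fintype.card_fun, Fintype.card_fin, Fintype.card_fin,
        Fintype.card_fin, ← pow_mul]
    have hterm : ∀ k ∈ Icc 1 (2 * p / 21),
        (((6 * p).choose k * (p.choose k * (k ^ (4 * k) * p ^ (4 * (6 * p - k)))) : ℕ) : ℝ) ≤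
          (p : ℝ) ^ (4 * (6 * p)) * (24 / 49) ^ k := by
      intro k hk
      rw [mem_Icc] at hk
      have h1 := hN p k hk.1 (by omega)
      have h2 : (6 * p).choose k * (p.choose k * (k ^ (4 * k) * p ^ (4 * (6 * p - k)))) * 49 ^ k ≤
          p ^ (4 * (6 * p)) * 24 ^ k := by
        calc (6 * p).choose k * (p.choose k * (k ^ (4 * k) * p ^ (4 * (6 * p - k)))) * 49 ^ k
            = ((6 * p).choose k * p.choose k * k ^ (4 * k) * 49 ^ k) * p ^ (4 * (6 * p - k)) := by
              ring
          _ ≤ (24 ^ k * p ^ (4 * k)) * p ^ (4 * (6 * p - k)) := Nat.mul_le_mul_right _ h1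
          _ = (p ^ (4 * k) * p ^ (4 * (6 * p - k))) * 24 ^ k := by ring
          _ = p ^ (4 * (6 * p)) * 24 ^ k := by
              rw [← pow_add]
              congr 2
              omega
      have h3 : (((6 * p).choose k * (p.choose k * (k ^ (4 * k) * p ^ (4 * (6 * p - k)))) : ℕ) : ℝ) *
          49 ^ k ≤ (p : ℝ) ^ (4 * (6 * p)) * 24 ^ k := by exact_mod_cast h2
      rw [div_pow, ← mul_div_assoc, le_div_iff₀ (by positivity)]
      exact h3
    have hsum : ((univ : Finset (Fin (6 * p) → Fin 4 → Fin p)).card : ℝ) ≤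
        (p : ℝ) ^ (4 * (6 * p)) * (24 / 25 * (1 - (24 / 49) ^ (2 * p / 21))) := by
      rw [← V3.geo, mul_sum]
      refine le_trans ?_ (sum_le_sum hterm)
      exact_mod_cast hcard
    rw [huniv] at hsum
    push_cast at hsum
    have hpos : (0 : ℝ) < (p : ℝ) ^ (4 * (6 * p)) := by positivity
    have hq : (0 : ℝ) < (24 / 49) ^ (2 * p / 21) := by positivity
    nlinarith

end Pool.Agent.N4.KR
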