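import Pool.Agent.N4.KR.Stm2

/-!
# Leaf V4: distributing a family of sets over a sixth as many sets
-/

set_option autoImplicit false

namespace Pool.Agent.N4.KR.V4

open Finset

variable {V : Type} [Fintype V] [DecidableEq V]

/-- near additivity for families of pairwise disjoint sets -/
theorem na_fam {ν : Finset V → ℝ} (h : NA ν) {ι : Type} [DecidableEq ι] (f : ι → Finset V)
    (s : Finset ι) (hs : s.Nonempty) :
    (∀ i ∈ s, ∀ j ∈ s, i ≠ j → Disjoint (f i) (f j)) →
      |ν (s.biUnion f) - ∑ i ∈ s, ν (f i)| ≤ s.card - 1 := by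
  induction hs using Finset.Nonempty.cons_induction with
  | singleton a => intro _; simp
  | cons a s ha hs ih =>
    intro hd
    have h1 := ih fun i hi j hj => hd i (mem_cons_of_mem hi) j (mem_cons_of_mem hj)
    have hdis : Disjoint (f a) (s.biUnion f) := by
      rw [disjoint_biUnion_right]
      intro j hj
      exact hd a (mem_cons_self a s) j (mem_cons_of_mem hj) (fun e => ha (e ▸ hj))
    have h2 := h _ _ hdis
    have e : (cons a s ha).biUnion f = f a ∪ s.biUnion f := by
      rw [cons_eq_insert, biUnion_insert]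
    rw [e, sum_cons, card_cons]
    push_cast
    rw [abs_le] at h1 h2 ⊢
    constructor <;> linarith [h1.1, h1.2, h2.1, h2.2]

theorem fam_le {ν : Finset V → ℝ} {M : ℝ} (h : NA ν) (hM : ∀ A, |ν A| ≤ M) (hM1 : 1 ≤ M)
    {ι : Type} [DecidableEq ι] (f : ι → Finset V) (s : Finset ι)
    (hd : ∀ i ∈ s, ∀ j ∈ s, i ≠ j → Disjoint (f i) (f j)) :
    ∑ i ∈ s, ν (f i) ≤ M + s.card - 1 := by
  rcases s.eq_empty_or_nonempty with rfl | hs
  · simpa using hM1
  · have h1 := (abs_le.1 (na_fam h f s hs hd)).1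
    have h2 := (abs_le.1 (hM (s.biUnion f))).2
    linarith

/-- the choice of one of the four neighbours -/
theorem choice {p : ℕ} (e : Fin (6 * p) → Fin 4 → Fin p)
    (he : ∀ S : Finset (Fin (6 * p)), 21 * S.card ≤ 2 * p →
      S.card ≤ (S.biUnion (fun i => univ.image (e i))).card) (I : Finset (Fin (6 * p)))
    (hI : 21 * I.card ≤ 2 * p) :
    ∃ k : Fin (6 * p) → Fin 4, ∀ i ∈ I, ∀ j ∈ I, e i (k i) = e j (k j) → i = j := by
  have hall : ∃ f : {i // i ∈ I} → Fin p, Function.Injective f ∧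
      ∀ i, f i ∈ (univ : Finset (Fin 4)).image (e i.1) := by
    refine (Finset.all_card_le_biUnion_card_iff_exists_injective
      (fun i : {i // i ∈ I} => (univ : Finset (Fin 4)).image (e i.1))).1 fun s => ?_
    have h1 : (s.map (Function.Embedding.subtype _)).card = s.card := card_map _
    have h2 : s.map (Function.Embedding.subtype _) ⊆ I := by
      intro i hi
      rw [mem_map] at hi
      obtain ⟨j, -, rfl⟩ := hi
      exact j.2
    have h3 : 21 * (s.map (Function.Embedding.subtype _)).card ≤ 2 * p :=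
      (Nat.mul_le_mul_left _ (card_le_card h2)).trans hI
    have h4 := he _ h3
    rw [h1] at h4
    refine h4.trans (card_le_card fun y hy => ?_)
    rw [mem_biUnion] at hy ⊢
    obtain ⟨i, hi, hy⟩ := hy
    rw [mem_map] at hi
    obtain ⟨j, hj, rfl⟩ := hi
    exact ⟨j, hj, hy⟩
  obtain ⟨f, hf, hm⟩ := hall
  have hk : ∀ i : Fin (6 * p), ∃ t : Fin 4, ∀ hi : i ∈ I, e i t = f ⟨i, hi⟩ := by
    intro i
    by_cases hi : i ∈ I
    · obtain ⟨t, -, ht⟩ := mem_image.1 (hm ⟨i, hi⟩)
      exact ⟨t, fun _ => ht⟩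
    · exact ⟨0, fun h => absurd h hi⟩
  choose k hk using hk
  refine ⟨k, fun i hi j hj h => ?_⟩
  rw [hk i hi, hk j hj] at h
  exact congrArg Subtype.val (hf h)

end Pool.Agent.N4.KR.V4

namespace Pool.Agent.N4.KR

open Finset V4

theorem v4 : Conc2 → Core2 := by
  intro hc V _ _ ν M l p C hν hM hM1 hp hC hx
  obtain ⟨e, he⟩ := hc p
  have hch : ∀ x : V, ∃ k : Fin (6 * p) → Fin 4, ∀ i, x ∈ C i → ∀ j, x ∈ C j →
      e i (k i) = e j (k j) → i = j := by
    intro x
    obtain ⟨k, hk⟩ := choice e he _ (hx x)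
    exact ⟨k, fun i hi j hj => hk i (by simpa using hi) j (by simpa using hj)⟩
  choose k hk using hch
  -- the pieces
  let P : Fin (6 * p) × Fin 4 → Finset V := fun q => (C q.1).filter fun x => k x q.1 = q.2
  have hP : ∀ q x, x ∈ P q ↔ x ∈ C q.1 ∧ k x q.1 = q.2 := fun q x => mem_filter
  -- each set is the disjoint union of its four pieces
  have h1 : ∀ i, ν (C i) ≤ ∑ t, ν (P (i, t)) + 3 := by
    intro i
    have hd : ∀ t ∈ (univ : Finset (Fin 4)), ∀ t' ∈ (univ : Finset (Fin 4)), t ≠ t' →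
        Disjoint (P (i, t)) (P (i, t')) := by
      intro t _ t' _ hne
      rw [disjoint_left]
      intro x hx1 hx2
      rw [hP] at hx1 hx2
      exact hne (hx1.2.symm.trans hx2.2)
    have h := na_fam hν (fun t => P (i, t)) univ univ_nonempty hd
    have hu : (univ : Finset (Fin 4)).biUnion (fun t => P (i, t)) = C i := by
      ext x
      rw [mem_biUnion]
      constructor
      · rintro ⟨t, -, ht⟩
        exact ((hP _ _).1 ht).1
      · intro h
        exact ⟨k x i, mem_univ _, (hP _ _).2 ⟨h, rfl⟩⟩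
    rw [hu, card_univ, Fintype.card_fin] at h
    have h' := (abs_le.1 h).2
    push_cast at h'
    linarith
  -- the pieces that go to `j`
  have h2 : ∀ j : Fin p, ∑ q ∈ univ.filter (fun q : Fin (6 * p) × Fin 4 => e q.1 q.2 = j), ν (P q) ≤
      M + (univ.filter (fun q : Fin (6 * p) × Fin 4 => e q.1 q.2 = j)).card - 1 := by
    intro j
    refine fam_le hν hM hM1 P _ fun q hq q' hq' hne => ?_
    rw [disjoint_left]
    intro x hx1 hx2
    rw [hP] at hx1 hx2
    rw [mem_filter] at hq hq'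
    have e1 : e q.1 (k x q.1) = e q'.1 (k x q'.1) := by
      rw [hx1.2, hx2.2, hq.2, hq'.2]
    have e2 := hk x q.1 hx1.1 q'.1 hx2.1 e1
    refine hne (Prod.ext e2 ?_)
    rw [← hx1.2, ← hx2.2, e2]
  have h3 : ∑ i, ∑ t, ν (P (i, t)) ≤ p * M + 23 * p := by
    have e1 : ∑ i, ∑ t, ν (P (i, t)) = ∑ q : Fin (6 * p) × Fin 4, ν (P q) := by
      rw [Fintype.sum_prod_type]
    have e2 : ∑ q : Fin (6 * p) × Fin 4, ν (P q) =
        ∑ j : Fin p, ∑ q ∈ univ.filter (fun q : Fin (6 * p) × Fin 4 => e q.1 q.2 = j), ν (P q) :=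
      (sum_fiberwise univ (fun q : Fin (6 * p) × Fin 4 => e q.1 q.2) fun q => ν (P q)).symm
    have e3 : ∑ j : Fin p, (univ.filter (fun q : Fin (6 * p) × Fin 4 => e q.1 q.2 = j)).card =
        6 * p * 4 := by
      rw [← card_eq_sum_card_fiberwise (fun x _ => mem_univ _), card_univ, Fintype.card_prod,
        Fintype.card_fin, Fintype.card_fin]
    rw [e1, e2]
    refine (sum_le_sum fun j _ => h2 j).trans (le_of_eq ?_)
    rw [sum_sub_distrib, sum_add_distrib, ← Nat.cast_sum, e3, sum_const, sum_const, card_univ,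
      Fintype.card_fin, nsmul_eq_mul, nsmul_eq_mul]
    push_cast
    ring
  have h4 : 6 * p * (M - l) ≤ ∑ i, ν (C i) := by
    have := sum_le_sum fun i (_ : i ∈ (univ : Finset (Fin (6 * p)))) => hC i
    rw [sum_const, card_univ, Fintype.card_fin, nsmul_eq_mul] at this
    push_cast at this
    exact this
  have h5 : ∑ i, ν (C i) ≤ ∑ i, ∑ t, ν (P (i, t)) + 18 * p := by
    refine (sum_le_sum fun i _ => h1 i).trans (le_of_eq ?_)
    rw [sum_add_distrib, sum_const, card_univ, Fintype.card_fin, nsmul_eq_mul]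
    push_cast
    ring
  have hp' : (0 : ℝ) < p := by exact_mod_cast hp
  have h6 : (p : ℝ) * (6 * (M - l)) ≤ p * (M + 41) := by linarith
  have h7 := le_of_mul_le_mul_left h6 hp'
  linarith

end Pool.Agent.N4.KR
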