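import Pool.Agent.N4.KR.Stm2

/-!
# Project KR, leaf V5: from real weights to a list (adapted from L5.lean by helper324)
-/

set_option autoImplicit false

namespace Pool.Agent.N4.KR

open Finset

theorem v5 : Core2 → Wts2 := by
  intro hcore V _ _ ν w M l hNA hM hM1 hw hl hfr
  obtain ⟨L, hLd⟩ : ∃ L : ℕ, L = Fintype.card (Finset V) := ⟨_, rfl⟩
  have hL : 0 < L := hLd ▸ Fintype.card_pos
  obtain ⟨n, hn⟩ : ∃ n : Finset V → ℕ, n = fun A => ⌊64 * (L : ℝ) * w A⌋₊ := ⟨_, rfl⟩
  obtain ⟨p, hpd⟩ : ∃ p : ℕ, p = ∑ A, n A := ⟨_, rfl⟩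
  have hn1 : ∀ A, (n A : ℝ) ≤ 64 * L * w A := fun A => by
    rw [hn]
    exact Nat.floor_le (mul_nonneg (by positivity) (hw.1 A))
  have hn2 : ∀ A, 64 * L * w A - 1 ≤ (n A : ℝ) := fun A => by
    rw [hn]
    have := Nat.lt_floor_add_one (64 * (L : ℝ) * w A)
    simp only
    linarith
  have hn3 : ∀ A, 0 < n A → w A ≠ 0 := by
    intro A hA h0
    have h1 := hn1 A
    rw [h0, mul_zero] at h1
    have h2 : (0 : ℝ) < n A := by exact_mod_cast hA
    linarith
  have hp : 63 * (L : ℝ) ≤ p := by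
    have h1 : ∑ A, (64 * (L : ℝ) * w A - 1) ≤ ∑ A, (n A : ℝ) := Finset.sum_le_sum fun A _ => hn2 A
    rw [Finset.sum_sub_distrib, ← Finset.mul_sum, hw.2, Finset.sum_const, Finset.card_univ, ← hLd,
      nsmul_eq_mul, mul_one, mul_one, ← Nat.cast_sum, ← hpd] at h1
    linarith
  have hcard : Fintype.card ((A : Finset V) × Fin (6 * n A)) = 6 * p := by
    rw [Fintype.card_sigma, hpd, Finset.mul_sum]
    exact Finset.sum_congr rfl fun A _ => Fintype.card_fin _
  obtain ⟨e⟩ : Nonempty (Fin (6 * p) ≃ ((A : Finset V) × Fin (6 * n A))) :=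
    ⟨(Fintype.equivFinOfCardEq hcard).symm⟩
  refine hcore V ν M l p (fun i => (e i).1) hNA hM hM1 ?_ ?_ ?_
  · have h0 : (0 : ℝ) < L := by exact_mod_cast hL
    have h1 : (0 : ℝ) < p := by linarith
    exact_mod_cast h1
  · intro i
    refine hl _ (hn3 _ ?_)
    have := (e i).2.isLt
    omega
  · intro x
    have h1 : (univ.filter (fun i => x ∈ (e i).1)).card = ∑ A : Finset V, if x ∈ A then 6 * n A else 0 := by
      rw [Finset.card_filter,
        Equiv.sum_comp e (fun q : (A : Finset V) × Fin (6 * n A) => if x ∈ q.1 then 1 else 0),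
        Fintype.sum_sigma]
      refine Finset.sum_congr rfl fun A _ => ?_
      change (∑ _y : Fin (6 * n A), if x ∈ A then 1 else 0) = _
      rw [Finset.sum_const, Finset.card_univ, Fintype.card_fin, smul_eq_mul]
      split_ifs <;> simp
    have h2 : ((univ.filter (fun i => x ∈ (e i).1)).card : ℝ) ≤ 6 * L := by
      rw [h1, ← Finset.sum_filter, Nat.cast_sum]
      have h3 : ∑ A ∈ univ.filter (fun A : Finset V => x ∈ A), ((6 * n A : ℕ) : ℝ) ≤
          ∑ A ∈ univ.filter (fun A : Finset V => x ∈ A), 384 * L * w A := by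
        refine Finset.sum_le_sum fun A _ => ?_
        have := hn1 A
        push_cast
        linarith
      rw [← Finset.mul_sum] at h3
      have h4 := hfr x
      unfold fr at h4
      have h5 : (0 : ℝ) ≤ 384 * L := by positivity
      have h6 := mul_le_mul_of_nonneg_left h4 h5
      linarith
    have h7 : (21 * (univ.filter (fun i => x ∈ (e i).1)).card : ℝ) ≤ 2 * p := by
      have h8 : (0 : ℝ) ≤ L := by positivity
      linarith
    exact_mod_cast h7

end Pool.Agent.N4.KR
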