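import Pool.Agent.N4.KR.Stm2
import Pool.Agent.N4.KR.L6

/-!
# Leaf V6: low frequencies, with the constant 10 (helper624)
-/

set_option autoImplicit false

namespace Pool.Agent.N4.KR

open Finset

theorem V6.inter {V : Type} [Fintype V] [DecidableEq V] {ν : Finset V → ℝ} {M l l' : ℝ}
    (hν : NA ν) (hM : ∀ A, |ν A| ≤ M) {A B : Finset V} (hA : M - l ≤ ν A) (hB : M - l' ≤ ν B) :
    M - (l + l' + 2) ≤ ν (A ∩ B) := by
  have h1 := hν A (B \ A) Finset.disjoint_sdiff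
  rw [Finset.union_sdiff_self_eq_union] at h1
  have h2 := hν (A ∩ B) (B \ A) (by
    rw [Finset.disjoint_left]
    intro x hx hx'
    exact (Finset.mem_sdiff.1 hx').2 (Finset.mem_inter.1 hx).1)
  have h3 : A ∩ B ∪ B \ A = B := by
    rw [Finset.inter_comm, Finset.union_comm]
    exact Finset.sdiff_union_inter B A
  rw [h3] at h2
  have h4 := (abs_le.1 (hM (A ∪ B))).2
  have h5 := (abs_le.1 h1).1
  have h6 := (abs_le.1 h2).2
  have h7 := (abs_le.1 h1).2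
  linarith

theorem v6 : Low2 := by
  intro V _ _ ν α β M hν hM hα hβ hαM hβM hfr
  have hw1 := pf6_pw (fun A B => A \ B) hα hβ
  have hv1 : ∀ C, pf6 (fun A B => A \ B) α β C ≠ 0 → M - 2 ≤ ν C := by
    intro C hC
    obtain ⟨A, B, hA, hB, rfl⟩ := pf6_ne hC
    exact low6_sdiff hν hM (hαM A hA) (hβM B hB)
  have hf1 : ∀ x, fr (pf6 (fun A B => A \ B) α β) x ≤ 1 / 4 := by
    intro x
    rw [fr6_sdiff hβ]
    have h1 := hfr x
    have h2 := fr6_nonneg hα x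
    nlinarith [sq_nonneg (fr α x - 1 / 2)]
  set w1 := pf6 (fun A B => A \ B) α β with hw1d
  have hw2 := pf6_pw (fun A B => A ∩ B) hw1 hw1
  have hv2 : ∀ C, pf6 (fun A B => A ∩ B) w1 w1 C ≠ 0 → M - 6 ≤ ν C := by
    intro C hC
    obtain ⟨A, B, hA, hB, rfl⟩ := pf6_ne hC
    have := V6.inter hν hM (hv1 A hA) (hv1 B hB)
    linarith
  have hf2 : ∀ x, fr (pf6 (fun A B => A ∩ B) w1 w1) x ≤ 1 / 16 := by
    intro x
    rw [fr6_inter]
    have h1 := hf1 x
    have h2 := fr6_nonneg hw1 x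
    nlinarith
  set w2 := pf6 (fun A B => A ∩ B) w1 w1 with hw2d
  have hw3 := pf6_pw (fun A B => A ∩ B) hw2 hw1
  refine ⟨pf6 (fun A B => A ∩ B) w2 w1, hw3, ?_, ?_⟩
  · intro C hC
    obtain ⟨A, B, hA, hB, rfl⟩ := pf6_ne hC
    have := V6.inter hν hM (hv2 A hA) (hv1 B hB)
    linarith
  · intro x
    rw [fr6_inter]
    have h1 := hf2 x
    have h2 := fr6_nonneg hw2 x
    have h3 := hf1 x
    have h4 := fr6_nonneg hw1 x
    nlinarith [mul_le_mul h1 h3 h4 (by norm_num : (0 : ℝ) ≤ 1 / 16)]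

end Pool.Agent.N4.KR
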