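import Pool.Agent.N4.KR.Stm2

/-!
# The theorem of Kalton and Roberts from the steps, constant `101/5` (helper58, after `L9`)
-/

set_option autoImplicit false

namespace Pool.Agent.N4.KR

open Finset

namespace V7

variable {V : Type} [Fintype V] [DecidableEq V]

theorem fr_smul (a : ℝ) (w : Finset V → ℝ) (x : V) : fr (fun A => a * w A) x = a * fr w x := by
  unfold fr
  rw [Finset.mul_sum]

theorem fr_nonneg (w : Finset V → ℝ) (hw : ∀ A, 0 ≤ w A) (x : V) : 0 ≤ fr w x :=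
  Finset.sum_nonneg fun A _ => hw A

theorem pw_smul (w : Finset V → ℝ) (hw : ∀ A, 0 ≤ w A) (h : 0 < ∑ A, w A) :
    PW (fun A => (∑ A, w A)⁻¹ * w A) := by
  refine ⟨fun A => mul_nonneg (inv_nonneg.2 h.le) (hw A), ?_⟩
  rw [← Finset.mul_sum, inv_mul_cancel₀ h.ne']

/-- the main case -/
theorem main (hW : Wts2) (hL : Low2) (ν α β : Finset V → ℝ) (M : ℝ) (hν : NA ν)
    (hM : ∀ A, |ν A| ≤ M) (ha : ∀ A, 0 ≤ α A) (hb : ∀ A, 0 ≤ β A)
    (h1 : ∀ A, α A ≠ 0 → ν A = M) (h2 : ∀ A, β A ≠ 0 → ν A = -M)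
    (h3 : ∀ x, fr α x = fr β x) (hs : 0 < ∑ A, α A) (ht : 0 < ∑ A, β A)
    (hst : ∑ A, β A ≤ ∑ A, α A) : M ≤ 101 / 5 := by
  rcases lt_or_ge M 1 with hM1 | hM1
  · linarith
  obtain ⟨w, hw1, hw2, hw3⟩ := hL V ν (fun A => (∑ A, α A)⁻¹ * α A)
    (fun A => (∑ A, β A)⁻¹ * β A) M hν hM (pw_smul α ha hs) (pw_smul β hb ht)
    (fun A hA => h1 A (right_ne_zero_of_mul hA)) (fun A hA => h2 A (right_ne_zero_of_mul hA))
    (fun x => by
      rw [fr_smul, fr_smul, h3 x]
      exact mul_le_mul_of_nonneg_right (inv_anti₀ ht hst) (fr_nonneg β hb x))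
  have := hW V ν w M 10 hν hM hM1 hw1 hw2 hw3
  linarith

/-- weights all of whose frequencies vanish -/
theorem zero_fr (β : Finset V → ℝ) (hb : ∀ A, 0 ≤ β A) (h : ∀ x, fr β x = 0)
    (hs : ∑ A, β A = 1) : β ∅ ≠ 0 := by
  have h1 : ∀ A : Finset V, A ≠ ∅ → β A = 0 := by
    intro A hA
    obtain ⟨x, hx⟩ := Finset.nonempty_iff_ne_empty.2 hA
    have h2 := (Finset.sum_eq_zero_iff_of_nonneg (fun A _ => hb A)).1 (h x)
    exact h2 A (Finset.mem_filter.2 ⟨Finset.mem_univ _, hx⟩)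
  intro h0
  have h3 : ∑ A, β A = 0 := Finset.sum_eq_zero fun A _ => by
    by_cases hA : A = ∅
    · rw [hA, h0]
    · exact h1 A hA
  rw [h3] at hs
  exact zero_ne_one hs

theorem empty_le (ν : Finset V → ℝ) (hν : NA ν) : |ν ∅| ≤ 1 := by
  have h := hν ∅ ∅ (Finset.disjoint_empty_left _)
  rw [Finset.empty_union, sub_self, zero_sub, abs_neg] at h
  exact h

end V7

open V7

theorem v7 : Leaf7 := by
  intro hW hL hB hO V _ _ u hu
  obtain ⟨μ, M, hM, hopt⟩ := hB V u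
  obtain ⟨α, β, ha, hb, hab, h1, h2, h3⟩ := hO V u μ M hM hopt
  refine ⟨μ, fun A => (hM A).trans ?_⟩
  obtain ⟨ν, hν⟩ : ∃ ν : Finset V → ℝ, ν = fun A => u A - ∑ x ∈ A, μ x := ⟨_, rfl⟩
  have hNA : NA ν := by
    intro A B hAB
    rw [hν]
    have e : u (A ∪ B) - ∑ x ∈ A ∪ B, μ x - (u A - ∑ x ∈ A, μ x) - (u B - ∑ x ∈ B, μ x) =
        u (A ∪ B) - u A - u B := by
      rw [Finset.sum_union hAB]
      ring
    change |u (A ∪ B) - ∑ x ∈ A ∪ B, μ x - (u A - ∑ x ∈ A, μ x) - (u B - ∑ x ∈ B, μ x)| ≤ 1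
    rw [e]
    exact hu A B hAB
  have hM' : ∀ A, |ν A| ≤ M := by
    intro A
    rw [hν]
    exact hM A
  have h1' : ∀ A, α A ≠ 0 → ν A = M := by
    intro A hA
    rw [hν]
    exact h1 A hA
  have h2' : ∀ A, β A ≠ 0 → ν A = -M := by
    intro A hA
    rw [hν]
    exact h2 A hA
  have hNAn : NA (fun A => -ν A) := by
    intro A B hAB
    have h := hNA A B hAB
    have e : -ν (A ∪ B) - -ν A - -ν B = -(ν (A ∪ B) - ν A - ν B) := by ring
    change |-ν (A ∪ B) - -ν A - -ν B| ≤ 1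
    rw [e, abs_neg]
    exact h
  have hMn : ∀ A, |(fun A => -ν A) A| ≤ M := by
    intro A
    change |-ν A| ≤ M
    rw [abs_neg]
    exact hM' A
  have hs0 : 0 ≤ ∑ A, α A := Finset.sum_nonneg fun A _ => ha A
  have ht0 : 0 ≤ ∑ A, β A := Finset.sum_nonneg fun A _ => hb A
  have he := empty_le ν hNA
  rcases hs0.eq_or_lt with hs | hs
  · -- `α = 0`
    have hz : ∀ A, α A = 0 := fun A =>
      (Finset.sum_eq_zero_iff_of_nonneg (fun A _ => ha A)).1 hs.symm A (Finset.mem_univ _)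
    have hfr : ∀ x, fr β x = 0 := by
      intro x
      rw [← h3 x]
      exact Finset.sum_eq_zero fun A _ => hz A
    have hβ : ∑ A, β A = 1 := by rw [← hs, zero_add] at hab; exact hab
    have h4 := h2' ∅ (zero_fr β hb hfr hβ)
    rw [h4, abs_neg] at he
    linarith [le_abs_self M]
  · rcases ht0.eq_or_lt with ht | ht
    · have hz : ∀ A, β A = 0 := fun A =>
        (Finset.sum_eq_zero_iff_of_nonneg (fun A _ => hb A)).1 ht.symm A (Finset.mem_univ _)
      have hfr : ∀ x, fr α x = 0 := by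
        intro x
        rw [h3 x]
        exact Finset.sum_eq_zero fun A _ => hz A
      have hα : ∑ A, α A = 1 := by rw [← ht, add_zero] at hab; exact hab
      have h4 := h1' ∅ (zero_fr α ha hfr hα)
      rw [h4] at he
      linarith [le_abs_self M]
    · rcases le_total (∑ A, β A) (∑ A, α A) with h | h
      · exact main hW hL ν α β M hNA hM' ha hb h1' h2' h3 hs ht h
      · refine main hW hL (fun A => -ν A) β α M hNAn hMn hb ha ?_ ?_ (fun x => (h3 x).symm) ht hs h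
        · intro A hA
          rw [h2' A hA, neg_neg]
        · intro A hA
          rw [h1' A hA]

end Pool.Agent.N4.KR
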