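import Pool.Agent.N4.KR.Stm2

/-!
# Leaf W1: the interaction with one element is nearly additive

Worker: helper900.
-/

set_option autoImplicit false

namespace Pool.Agent.N4.KR

open Finset

namespace W1

variable {V : Type} [Fintype V] [DecidableEq V]

lemma erase_union (z : V) (A B : Finset V) : (A ∪ B).erase z = A.erase z ∪ B.erase z := by
  ext x
  simp only [mem_erase, mem_union]
  tauto

lemma insert_eq (z : V) (A : Finset V) : insert z A = A.erase z ∪ {z} := by
  ext x
  simp only [mem_insert, mem_union, mem_erase, mem_singleton]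
  tauto

lemma na (f : Finset V → ℝ)
    (hT : ∀ A B C : Finset V, Disjoint A B → Disjoint A C → Disjoint B C →
      |R647.AF.T f A B C| ≤ 1) (z : V) :
    NA (fun X => f (X.erase z) + f {z} - f (insert z X)) := by
  intro A B hAB
  have hd1 : Disjoint (A.erase z) (B.erase z) :=
    hAB.mono (erase_subset z A) (erase_subset z B)
  have hd2 : ∀ C : Finset V, Disjoint (C.erase z) {z} := fun C => by simp
  have h1 := hT (A.erase z) (B.erase z) {z} hd1 (hd2 A) (hd2 B)
  simp only
  rw [insert_eq z (A ∪ B), insert_eq z A, insert_eq z B, erase_union]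
  unfold R647.AF.T at h1
  refine le_trans (le_of_eq ?_) h1
  congr 1
  ring

end W1

theorem w1 : NearStm := by
  intro hK V _ _ f hT
  choose m hm using fun z : V => hK V _ (W1.na f hT z)
  refine ⟨fun z x => if x = z then 0 else m z x, fun z => by simp, fun z X hz => ?_⟩
  have h1 := hm z X
  have e1 : X.erase z = X := erase_eq_of_notMem hz
  rw [e1] at h1
  have e2 : ∑ x ∈ X, (if x = z then 0 else m z x) = ∑ x ∈ X, m z x := by
    refine sum_congr rfl fun x hx => ?_
    rw [if_neg]
    rintro rfl
    exact hz hx
  simp only
  rw [e2]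
  exact h1

end Pool.Agent.N4.KR
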