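import Pool.Agent.N4.KR.Stm2

/-!
# Project KR (helper4), leaf W2: telescoping along a key (helper288)
-/

set_option autoImplicit false

namespace Pool.Agent.N4.KR

open Finset

theorem w2 : Tele := by
  intro V _ _ f μ K k hN hk A
  induction A using Finset.induction_on_max_value k with
  | empty =>
    intro h
    exact absurd h Finset.not_nonempty_empty
  | insert a s ha hmax ih =>
    intro _
    have hlt : ∀ x ∈ s, k x < k a := by
      intro x hx
      refine lt_of_le_of_ne (hmax x hx) fun h => ha ?_
      rw [← hk h]
      exact hx
    have e1 : (insert a s).filter (fun c => k c < k a) = s := by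
      ext c
      rw [mem_filter, mem_insert]
      constructor
      · rintro ⟨rfl | hc, h⟩
        · exact absurd h (lt_irrefl _)
        · exact hc
      · intro hc
        exact ⟨Or.inr hc, hlt c hc⟩
    have e2 : ∀ b ∈ s, (insert a s).filter (fun c => k c < k b) = s.filter (fun c => k c < k b) := by
      intro b hb
      ext c
      rw [mem_filter, mem_filter, mem_insert]
      constructor
      · rintro ⟨rfl | hc, h⟩
        · exact absurd (h.trans (hlt b hb)) (lt_irrefl _)
        · exact ⟨hc, h⟩
      · rintro ⟨hc, h⟩
        exact ⟨Or.inr hc, h⟩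
    have e3 : ∑ b ∈ s, ∑ c ∈ (insert a s).filter (fun c => k c < k b), μ b c =
        ∑ b ∈ s, ∑ c ∈ s.filter (fun c => k c < k b), μ b c :=
      sum_congr rfl fun b hb => by rw [e2 b hb]
    rw [sum_insert ha, sum_insert ha, e1, card_insert_of_notMem ha, e3]
    rcases s.eq_empty_or_nonempty with rfl | hs
    · simp
    · have h1 := abs_le.1 (ih hs)
      have h2 := abs_le.1 (hN a s ha)
      rw [abs_le]
      push_cast
      constructor <;> linarith [h1.1, h1.2, h2.1, h2.2]

end Pool.Agent.N4.KR
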