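import Pool.Agent.N4.KR.Stm2

/-!
# Project KR, leaf W3: the antisymmetric part (helper562)
-/

set_option autoImplicit false

namespace Pool.Agent.N4.KR

open Finset

namespace W3

theorem sum_ind {V : Type} [Fintype V] [DecidableEq V] (g : V → V → ℝ) (A B : Finset V) :
    ∑ a, ∑ c, (if a ∈ A then (if c ∈ B then g a c else 0) else 0) = ∑ a ∈ A, ∑ c ∈ B, g a c := by
  have h1 : ∀ a, ∑ c, (if a ∈ A then (if c ∈ B then g a c else 0) else 0) =
      if a ∈ A then ∑ c ∈ B, g a c else 0 := by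
    intro a
    by_cases ha : a ∈ A
    · simp only [if_pos ha]
      rw [sum_ite_mem, univ_inter]
    · simp only [if_neg ha]
      exact sum_const_zero
  simp_rw [h1]
  rw [sum_ite_mem, univ_inter]

theorem diff {V : Type} [Fintype V] [DecidableEq V] (μ : V → V → ℝ) (A : Finset V)
    (k₀ : V → ℕ) (n : ℕ) (hk : ∀ x, k₀ x < n) (k₁ k₄ : V → ℕ)
    (h1 : ∀ x, k₁ x = if x ∈ A then k₀ x else n + k₀ x)
    (h4 : ∀ x, k₄ x = if x ∈ A then n + k₀ x else k₀ x) :
    (∑ a, ∑ c ∈ univ.filter (fun c => k₄ c < k₄ a), μ a c) -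
      (∑ a, ∑ c ∈ univ.filter (fun c => k₁ c < k₁ a), μ a c) =
      ∑ a ∈ A, ∑ c ∈ Aᶜ, (μ a c - μ c a) := by
  have key : ∀ a c, (if k₄ c < k₄ a then μ a c else 0) - (if k₁ c < k₁ a then μ a c else 0) =
      (if a ∈ A then (if c ∈ Aᶜ then μ a c else 0) else 0) -
        (if a ∈ Aᶜ then (if c ∈ A then μ a c else 0) else 0) := by
    intro a c
    have ha0 := hk a
    have hc0 := hk c
    rw [h4 c, h4 a, h1 c, h1 a]
    by_cases ha : a ∈ A
    · have ha' : a ∉ Aᶜ := by rw [mem_compl]; exact not_not.2 ha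
      by_cases hc : c ∈ A
      · have hc' : c ∉ Aᶜ := by rw [mem_compl]; exact not_not.2 hc
        simp only [if_pos ha, if_pos hc, if_neg ha', if_neg hc']
        have : (n + k₀ c < n + k₀ a) ↔ (k₀ c < k₀ a) := by omega
        simp only [this]
        ring
      · have hc' : c ∈ Aᶜ := by rw [mem_compl]; exact hc
        simp only [if_pos ha, if_neg hc, if_neg ha', if_pos hc']
        rw [if_pos (by omega), if_neg (by omega)]
    · have ha' : a ∈ Aᶜ := by rw [mem_compl]; exact ha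
      by_cases hc : c ∈ A
      · have hc' : c ∉ Aᶜ := by rw [mem_compl]; exact not_not.2 hc
        simp only [if_neg ha, if_pos hc, if_pos ha']
        rw [if_neg (by omega), if_pos (by omega)]
      · have hc' : c ∈ Aᶜ := by rw [mem_compl]; exact hc
        simp only [if_neg ha, if_neg hc, if_pos ha']
        have : (n + k₀ c < n + k₀ a) ↔ (k₀ c < k₀ a) := by omega
        simp only [this]
        ring
  simp_rw [sum_filter]
  rw [← sum_sub_distrib]
  simp_rw [← sum_sub_distrib, key]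
  simp_rw [sum_sub_distrib]
  rw [sum_ind, sum_ind, sum_comm (s := Aᶜ)]

theorem main {V : Type} [Fintype V] [DecidableEq V] (hT : Tele) (f : Finset V → ℝ)
    (μ : V → V → ℝ) (K : ℝ) (hN : Near f μ K) (hV : 1 ≤ Fintype.card V) (A : Finset V) :
    |∑ a ∈ A, ∑ c ∈ Aᶜ, (μ a c - μ c a)| ≤ 2 * K * (Fintype.card V - 1) := by
  obtain ⟨n, hn⟩ : ∃ n, n = Fintype.card V := ⟨_, rfl⟩
  obtain ⟨k₀, hk₀⟩ : ∃ k₀ : V → ℕ, k₀ = fun x => ((Fintype.equivFin V x : Fin _) : ℕ) := ⟨_, rfl⟩
  have hlt : ∀ x, k₀ x < n := by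
    intro x
    rw [hk₀, hn]
    exact (Fintype.equivFin V x).2
  have hinj : ∀ x y, k₀ x = k₀ y → x = y := by
    intro x y h
    rw [hk₀] at h
    exact (Fintype.equivFin V).injective (Fin.ext h)
  obtain ⟨k₁, h1⟩ : ∃ k₁ : V → ℕ, ∀ x, k₁ x = if x ∈ A then k₀ x else n + k₀ x := ⟨_, fun _ => rfl⟩
  obtain ⟨k₄, h4⟩ : ∃ k₄ : V → ℕ, ∀ x, k₄ x = if x ∈ A then n + k₀ x else k₀ x := ⟨_, fun _ => rfl⟩
  have i1 : Function.Injective k₁ := by
    intro x y h
    rw [h1, h1] at h
    have := hlt x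
    have := hlt y
    apply hinj
    split_ifs at h <;> omega
  have i4 : Function.Injective k₄ := by
    intro x y h
    rw [h4, h4] at h
    have := hlt x
    have := hlt y
    apply hinj
    split_ifs at h <;> omega
  have hne : (univ : Finset V).Nonempty := by
    rw [← card_pos, card_univ]
    omega
  have t1 := hT V f μ K k₁ hN i1 univ hne
  have t4 := hT V f μ K k₄ hN i4 univ hne
  rw [card_univ] at t1 t4
  have hd := diff μ A k₀ n hlt k₁ k₄ h1 h4
  rw [← hd]
  rw [abs_le] at t1 t4 ⊢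
  constructor <;> linarith [t1.1, t1.2, t4.1, t4.2]

end W3

theorem w3 : Theta := fun hT _ _ _ f μ K hN hV A => W3.main hT f μ K hN hV A

end Pool.Agent.N4.KR
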