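import Pool.Agent.N4.KR.Stm2

/-!
# Leaf W4: the symmetric part (helper667)
-/

set_option autoImplicit false

namespace Pool.Agent.N4.KR.W4

open Finset

theorem sum_two {V : Type} [DecidableEq V] (A : Finset V) (k0 k1 : V → ℕ) (a : V) (g : V → ℝ)
    (hg : g a = 0) (hi : Function.Injective k0) (h : ∀ x y, k1 x < k1 y ↔ k0 y < k0 x) :
    ∑ c ∈ A.filter (fun c => k0 c < k0 a), g c + ∑ c ∈ A.filter (fun c => k1 c < k1 a), g c =
      ∑ c ∈ A, g c := by
  rw [Finset.sum_filter, Finset.sum_filter, ← Finset.sum_add_distrib]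
  refine Finset.sum_congr rfl fun c _ => ?_
  by_cases hc : c = a
  · subst hc
    rw [if_neg (lt_irrefl _), if_neg (lt_irrefl _), hg, add_zero]
  · rcases lt_trichotomy (k0 c) (k0 a) with h1 | h1 | h1
    · rw [if_pos h1, if_neg (by rw [h]; exact not_lt.2 h1.le), add_zero]
    · exact absurd (hi h1) hc
    · rw [if_neg (not_lt.2 h1.le), if_pos (by rw [h]; exact h1), zero_add]

end Pool.Agent.N4.KR.W4

namespace Pool.Agent.N4.KR

open Finset

theorem w4 : Pairs := by
  intro hT V _ _ f μ K hμ hN A hA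
  obtain ⟨k0, hk0, hk0'⟩ : ∃ k0 : V → ℕ, Function.Injective k0 ∧ ∀ x, k0 x < Fintype.card V :=
    ⟨fun x => (Fintype.equivFin V x).val, fun x y h => (Fintype.equivFin V).injective (Fin.ext h),
      fun x => (Fintype.equivFin V x).isLt⟩
  obtain ⟨k1, hk1⟩ : ∃ k1 : V → ℕ, ∀ x, k1 x = Fintype.card V - k0 x := ⟨_, fun _ => rfl⟩
  have hk1' : Function.Injective k1 := by
    intro x y h
    rw [hk1, hk1] at h
    have h1 := hk0' x
    have h2 := hk0' y
    exact hk0 (by omega)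
  have hlt : ∀ x y, k1 x < k1 y ↔ k0 y < k0 x := by
    intro x y
    rw [hk1, hk1]
    have h1 := hk0' x
    have h2 := hk0' y
    omega
  have h0 := hT V f μ K k0 hN hk0 A hA
  have h1 := hT V f μ K k1 hN hk1' A hA
  have h2 : ∑ a ∈ A, ∑ c ∈ A.filter (fun c => k0 c < k0 a), μ a c +
      ∑ a ∈ A, ∑ c ∈ A.filter (fun c => k1 c < k1 a), μ a c = ∑ a ∈ A, ∑ c ∈ A, μ a c := by
    rw [← Finset.sum_add_distrib]
    exact Finset.sum_congr rfl fun a _ => W4.sum_two A k0 k1 a (μ a) (hμ a) hk0 hlt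
  rw [abs_le] at h0 h1 ⊢
  constructor
  · linarith [h0.1, h1.1]
  · linarith [h0.2, h1.2]

end Pool.Agent.N4.KR
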