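import Pool.Agent.N4.KR.Stm2

/-!
# Project KR, leaf W5: the symmetric weights
-/

set_option autoImplicit false

namespace Pool.Agent.N4.KR

open Finset

namespace W5

variable {V : Type} [Fintype V] [DecidableEq V]

theorem cut_eq (H : V → V → ℝ) (A : Finset V) :
    cut H A = ∑ i ∈ A, ∑ j, H i j - ∑ i ∈ A, ∑ j ∈ A, H i j := by
  unfold cut
  rw [← Finset.sum_sub_distrib]
  refine Finset.sum_congr rfl fun i _ => ?_
  have := Finset.sum_add_sum_compl A (fun j => H i j)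
  linarith

theorem anti (μ : V → V → ℝ) (A : Finset V) : ∑ a ∈ A, ∑ c ∈ A, (μ a c - μ c a) = 0 := by
  simp only [Finset.sum_sub_distrib]
  rw [Finset.sum_comm (s := A) (t := A) (f := fun a c => μ c a), sub_self]

end W5

open W5 in
theorem w5 : Weights := by
  intro V _ _ f μ K hn hz h1 h2 h3
  obtain ⟨n, hnd⟩ : ∃ n : ℝ, n = (Fintype.card V : ℝ) := ⟨_, rfl⟩
  have hn3 : (3 : ℝ) ≤ n := by
    rw [hnd]
    exact_mod_cast hn
  have n2 : (0 : ℝ) < n - 2 := by linarith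
  have n1 : (0 : ℝ) < n - 1 := by linarith
  obtain ⟨θ, hθ⟩ : ∃ θ : V → ℝ, ∀ a, θ a = ∑ c, (μ a c - μ c a) := ⟨_, fun _ => rfl⟩
  obtain ⟨e, he⟩ : ∃ e : V → ℝ, ∀ a, e a = f {a} - 1 / 2 * ∑ c, μ a c := ⟨_, fun _ => rfl⟩
  obtain ⟨ρ, hρ⟩ : ∃ ρ : V → ℝ, ∀ a, ρ a = e a + θ a / 4 := ⟨_, fun _ => rfl⟩
  obtain ⟨P, hP⟩ : ∃ P : ℝ, P = ∑ a, ρ a := ⟨_, rfl⟩
  obtain ⟨u, hu⟩ : ∃ u : ℝ, u = 1 / (n - 2) := ⟨_, rfl⟩
  obtain ⟨v, hv⟩ : ∃ v : ℝ, v = 1 / ((n - 1) * (n - 2)) := ⟨_, rfl⟩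
  have hu2 : u * (n - 2) = 1 := by
    rw [hu]
    field_simp
  have hv2 : v * (n - 1) = u := by
    rw [hu, hv]
    field_simp
  have hθ0 : ∑ a, θ a = 0 := by
    simp only [hθ]
    exact anti μ univ
  have hPe : P = ∑ a, e a := by
    rw [hP]
    simp only [hρ, Finset.sum_add_distrib]
    rw [← Finset.sum_div, hθ0]
    ring
  have hea : ∀ a, |e a| ≤ K / 2 := by
    intro a
    have := h1 a
    rw [he, show f {a} - 1 / 2 * ∑ c, μ a c = (2 * f {a} - ∑ c, μ a c) / 2 by ring, abs_div,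
      abs_of_pos (by norm_num : (0 : ℝ) < 2)]
    linarith
  obtain ⟨H, hH⟩ : ∃ H : V → V → ℝ, ∀ a c, H a c =
      (μ a c + μ c a) / 4 + (ρ a + ρ c) * u - P * v := ⟨_, fun _ _ => rfl⟩
  have hHd : ∀ a, H a a = 2 * ρ a * u - P * v := by
    intro a
    rw [hH, hz]
    ring
  have hrow : ∀ a, ∑ c, H a c = f {a} + H a a := by
    intro a
    rw [hHd]
    simp only [hH]
    rw [Finset.sum_sub_distrib, Finset.sum_add_distrib, ← Finset.sum_mul, Finset.sum_add_distrib,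
      ← Finset.sum_div, Finset.sum_add_distrib, ← hP, Finset.sum_const, Finset.sum_const,
      Finset.card_univ, nsmul_eq_mul, nsmul_eq_mul, ← hnd]
    have k1 := hθ a
    rw [Finset.sum_sub_distrib] at k1
    have k2 := he a
    have k3 := hρ a
    have k4 : (n * ρ a + P) * u - n * (P * v) = ρ a + (2 * ρ a * u - P * v) := by
      have : (n * ρ a + P) * u - n * (P * v) - (ρ a + (2 * ρ a * u - P * v)) =
          ρ a * (u * (n - 2) - 1) - P * (v * (n - 1) - u) := by ring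
      rw [hu2, hv2] at this
      linarith
    linarith
  have hcut : ∀ A : Finset V, cut H A = ∑ a ∈ A, f {a} - 1 / 2 * ∑ a ∈ A, ∑ c ∈ A, μ a c -
      ((A.card : ℝ) - 1) * (2 * (∑ a ∈ A, ρ a) * u - A.card * P * v) := by
    intro A
    have k1 : ∑ a ∈ A, ∑ c ∈ A, H a c = 1 / 2 * ∑ a ∈ A, ∑ c ∈ A, μ a c +
        2 * A.card * (∑ a ∈ A, ρ a) * u - A.card ^ 2 * P * v := by
      simp only [hH]
      have m1 : ∀ a ∈ A, ∑ c ∈ A, ((μ a c + μ c a) / 4 + (ρ a + ρ c) * u - P * v) =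
          1 / 4 * ∑ c ∈ A, μ a c + 1 / 4 * ∑ c ∈ A, μ c a + (A.card * ρ a + ∑ c ∈ A, ρ c) * u -
            A.card * (P * v) := by
        intro a _
        rw [Finset.sum_sub_distrib, Finset.sum_add_distrib, ← Finset.sum_mul,
          Finset.sum_add_distrib, ← Finset.sum_div, Finset.sum_add_distrib, Finset.sum_const,
          Finset.sum_const, nsmul_eq_mul, nsmul_eq_mul]
        ring
      rw [Finset.sum_congr rfl m1, Finset.sum_sub_distrib, Finset.sum_add_distrib,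
        Finset.sum_add_distrib, ← Finset.mul_sum, ← Finset.mul_sum, ← Finset.sum_mul,
        Finset.sum_add_distrib, ← Finset.mul_sum, Finset.sum_const, Finset.sum_const,
        Finset.sum_comm (s := A) (t := A) (f := fun a c => μ c a), nsmul_eq_mul, nsmul_eq_mul]
      ring
    have k2 : ∑ a ∈ A, H a a = 2 * (∑ a ∈ A, ρ a) * u - A.card * P * v := by
      simp only [hHd]
      rw [Finset.sum_sub_distrib, ← Finset.sum_mul, ← Finset.mul_sum, Finset.sum_const,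
        nsmul_eq_mul]
      ring
    rw [cut_eq, k1]
    simp only [hrow]
    rw [Finset.sum_add_distrib, k2]
    ring
  refine ⟨H, ?_, ?_, ?_⟩
  · intro i j
    rw [hH, hH]
    ring
  · intro i
    rw [hcut]
    simp [hz]
  · intro A hA1 hA2
    have hAne : A.Nonempty := Finset.card_pos.1 hA1
    obtain ⟨s, hs⟩ : ∃ s : ℝ, s = (A.card : ℝ) := ⟨_, rfl⟩
    have hs1 : (1 : ℝ) ≤ s := by
      rw [hs]
      exact_mod_cast hA1
    have hsn : 2 * s ≤ n := by
      rw [hs, hnd]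
      exact_mod_cast hA2
    have b1 := h3 A hAne
    have b2 := h2 A
    rw [← hnd] at b2 ⊢
    rw [← hs] at b1 ⊢
    have hK : 0 ≤ K := by
      have := (abs_nonneg _).trans b2
      nlinarith
    have t1 : ∑ a ∈ A, θ a = ∑ a ∈ A, ∑ c ∈ Aᶜ, (μ a c - μ c a) := by
      have : ∀ a ∈ A, θ a = ∑ c ∈ A, (μ a c - μ c a) + ∑ c ∈ Aᶜ, (μ a c - μ c a) := by
        intro a _
        rw [hθ, Finset.sum_add_sum_compl]
      rw [Finset.sum_congr rfl this, Finset.sum_add_distrib, anti, zero_add]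
    rw [← t1] at b2
    have b3 : |∑ a ∈ A, e a| ≤ K * s / 2 := by
      refine (Finset.abs_sum_le_sum_abs _ _).trans ?_
      refine (Finset.sum_le_sum fun a _ => hea a).trans ?_
      rw [Finset.sum_const, nsmul_eq_mul, ← hs]
      linarith
    have b4 : |∑ a ∈ Aᶜ, e a| ≤ K * (n - s) / 2 := by
      refine (Finset.abs_sum_le_sum_abs _ _).trans ?_
      refine (Finset.sum_le_sum fun a _ => hea a).trans ?_
      rw [Finset.sum_const, nsmul_eq_mul, Finset.card_compl, Nat.cast_sub (Finset.card_le_univ A),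
        ← hs, ← hnd]
      linarith
    have t2 : ∑ a ∈ A, e a + ∑ a ∈ Aᶜ, e a = P := by
      rw [hPe, Finset.sum_add_sum_compl]
    have t3 : ∑ a ∈ A, ρ a = ∑ a ∈ A, e a + (∑ a ∈ A, θ a) / 4 := by
      simp only [hρ]
      rw [Finset.sum_add_distrib, Finset.sum_div]
    obtain ⟨E, hE⟩ : ∃ E : ℝ, E = ∑ a ∈ A, e a := ⟨_, rfl⟩
    obtain ⟨E', hE'⟩ : ∃ E' : ℝ, E' = ∑ a ∈ Aᶜ, e a := ⟨_, rfl⟩
    obtain ⟨Θ, hΘ⟩ : ∃ Θ : ℝ, Θ = ∑ a ∈ A, θ a := ⟨_, rfl⟩
    obtain ⟨B, hB⟩ : ∃ B : ℝ, B = f A - ∑ a ∈ A, f {a} + (1 / 2) * ∑ a ∈ A, ∑ c ∈ A, μ a c :=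
      ⟨_, rfl⟩
    rw [← hE] at b3 t2 t3
    rw [← hE'] at b4 t2
    rw [← hΘ] at b2 t3
    rw [← hB] at b1
    have e1 : (f A - cut H A) * (n - 2) = B * (n - 2) +
        (s - 1) * (Θ / 2 + (2 - s / (n - 1)) * E - s / (n - 1) * E') := by
      have e2 : f A - cut H A = B + (s - 1) * (2 * (E + Θ / 4) * u - s * P * v) := by
        rw [hcut, t3, hB, ← hs]
        ring
      rw [e2, ← t2]
      have e3 : u = 1 / (n - 2) := hu
      rw [hu, hv]
      field_simp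
      ring
    have e4 : |f A - cut H A| * (n - 2) = |(f A - cut H A) * (n - 2)| := by
      rw [abs_mul, abs_of_pos n2]
    obtain ⟨q, hq⟩ : ∃ q : ℝ, q = s / (n - 1) := ⟨_, rfl⟩
    have hq0 : 0 ≤ q := by
      rw [hq]
      positivity
    have hq1 : q ≤ 2 := by
      rw [hq, div_le_iff₀ n1]
      linarith
    have e5 : K * (s - 1) * ((2 * n - 3 + s) + s * (n - 2 * s) / (2 * (n - 1))) =
        K * (s - 1) * (n - 2) + (s - 1) * (2 * K * (n - 1) / 2 + (2 - q) * (K * s / 2) +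
          q * (K * (n - s) / 2)) := by
      rw [hq]
      field_simp
      ring
    rw [e4, e1, e5, ← hq]
    have c1 : |B * (n - 2)| ≤ K * (s - 1) * (n - 2) := by
      rw [abs_mul, abs_of_pos n2]
      exact mul_le_mul_of_nonneg_right b1 n2.le
    have c2 : |Θ / 2 + (2 - q) * E - q * E'| ≤
        2 * K * (n - 1) / 2 + (2 - q) * (K * s / 2) + q * (K * (n - s) / 2) := by
      have d1 : |Θ / 2| ≤ 2 * K * (n - 1) / 2 := by
        rw [abs_div, abs_of_pos (by norm_num : (0 : ℝ) < 2)]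
        linarith
      have d2 : |(2 - q) * E| ≤ (2 - q) * (K * s / 2) := by
        rw [abs_mul, abs_of_nonneg (by linarith : (0 : ℝ) ≤ 2 - q)]
        exact mul_le_mul_of_nonneg_left b3 (by linarith)
      have d3 : |q * E'| ≤ q * (K * (n - s) / 2) := by
        rw [abs_mul, abs_of_nonneg hq0]
        exact mul_le_mul_of_nonneg_left b4 hq0
      rw [abs_le] at d1 d2 d3 ⊢
      exact ⟨by linarith [d1.1, d2.1, d3.2], by linarith [d1.2, d2.2, d3.1]⟩
    have c3 : |(s - 1) * (Θ / 2 + (2 - q) * E - q * E')| ≤ (s - 1) *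
        (2 * K * (n - 1) / 2 + (2 - q) * (K * s / 2) + q * (K * (n - s) / 2)) := by
      rw [abs_mul, abs_of_nonneg (by linarith : (0 : ℝ) ≤ s - 1)]
      exact mul_le_mul_of_nonneg_left c2 (by linarith)
    exact (abs_add_le _ _).trans (add_le_add c1 c3)

end Pool.Agent.N4.KR
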