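import Pool.Agent.N4.KR.Stm2

/-!
# KR/W6 (helper521, project KR of helper4): the approximation by cut functions
-/

set_option autoImplicit false

namespace Pool.Agent.N4.KR

namespace W6

open Finset

lemma cut_compl' {V : Type} [Fintype V] [DecidableEq V] {G : V → V → ℝ}
    (hG : ∀ i j, G i j = G j i) (S : Finset V) : cut G Sᶜ = cut G S := by
  unfold cut
  rw [compl_compl, sum_comm]
  exact sum_congr rfl fun i _ => sum_congr rfl fun j _ => hG j i

/-- The numerical inequality. -/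
lemma num {n s : ℝ} (hn : 200 ≤ n) (hs : 0 ≤ s) (h : 2 * s ≤ n) :
    101 / 5 * ((2 * n - 3 + s) * (n - 1) + s * (n - 2 * s) / 2) ≤
      103 * (n - 2) * (n - s - 1) := by
  obtain ⟨t, ht⟩ : ∃ t, t = n - 2 * s := ⟨_, rfl⟩
  obtain ⟨m, hm⟩ : ∃ m, m = n - 200 := ⟨_, rfl⟩
  have ht0 : 0 ≤ t := by linarith
  have hm0 : 0 ≤ m := by linarith
  have hn' : n = m + 200 := by linarith
  have hs' : s = (m + 200 - t) / 2 := by linarith
  subst hs'
  subst hn'
  have e : 103 * (m + 200 - 2) * (m + 200 - (m + 200 - t) / 2 - 1) -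
      101 / 5 * ((2 * (m + 200) - 3 + (m + 200 - t) / 2) * (m + 200 - 1) +
        (m + 200 - t) / 2 * (m + 200 - 2 * ((m + 200 - t) / 2)) / 2) =
      m ^ 2 + 3051 / 10 * m + 105827 / 5 + 1131 / 20 * (t * m) + 111969 / 10 * t +
        101 / 20 * t ^ 2 := by
    ring
  have h1 := mul_nonneg ht0 hm0
  have h2 := sq_nonneg t
  have h3 := sq_nonneg m
  linarith

/-- The comparison with `kap`. -/
lemma fin {n s D : ℝ} (hn : 200 ≤ n) (hs : 1 ≤ s) (h : 2 * s ≤ n)
    (hD : D * (n - 2) ≤ 101 / 5 * (s - 1) * ((2 * n - 3 + s) + s * (n - 2 * s) / (2 * (n - 1)))) :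
    D ≤ 103 * (s * (n - s) / (n - 1) - 1) := by
  have h1 : 0 < n - 1 := by linarith
  have h2 : 0 < n - 2 := by linarith
  have h3 := num hn (by linarith) h
  have e1 : 101 / 5 * (s - 1) * ((2 * n - 3 + s) + s * (n - 2 * s) / (2 * (n - 1))) =
      (s - 1) * (101 / 5 * ((2 * n - 3 + s) * (n - 1) + s * (n - 2 * s) / 2)) / (n - 1) := by
    field_simp
  have e2 : 103 * (s * (n - s) / (n - 1) - 1) * (n - 2) =
      (s - 1) * (103 * (n - 2) * (n - s - 1)) / (n - 1) := by
    field_simp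
    ring
  refine le_of_mul_le_mul_right (hD.trans ?_) h2
  rw [e1, e2]
  exact div_le_div_of_nonneg_right (mul_le_mul_of_nonneg_left h3 (by linarith)) h1.le

end W6

open Finset in
/-- **Leaf W6.** -/
theorem w6 : Cut2 := by
  intro hKR hN hT hTh hP hW V _ _ f hn hsym hT1
  obtain ⟨μ, hμ0, hnear⟩ := hN hKR V f hT1
  have h3 : ∀ z, |2 * f {z} - ∑ x, μ z x| ≤ 101 / 5 := by
    intro z
    have h := hnear z (univ.erase z) (notMem_erase z univ)
    have e1 : insert z (univ.erase z) = (univ : Finset V) := insert_erase (mem_univ z)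
    have e2 : univ.erase z = ({z} : Finset V)ᶜ := by
      ext x
      simp
    have e3 : ∑ x ∈ univ.erase z, μ z x = ∑ x, μ z x := by
      rw [← Finset.add_sum_erase univ (fun x => μ z x) (mem_univ z), hμ0 z, zero_add]
    have e4 : f univ = 0 := by
      rw [← compl_empty, hsym.2, hsym.1]
    rw [e1, e3, e4, e2, hsym.2, sub_zero, ← two_mul] at h
    exact h
  obtain ⟨H, hH1, hH2, hH3⟩ := hW V f μ (101 / 5) (by omega) hμ0 h3
    (hTh hT V f μ (101 / 5) hnear (by omega)) (hP hT V f μ (101 / 5) hμ0 hnear)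
  have hn' : (200 : ℝ) ≤ Fintype.card V := by exact_mod_cast hn
  have half : ∀ A : Finset V, 2 * A.card ≤ Fintype.card V →
      |f A - cut H A| ≤ 103 * R647.AF.kap A := by
    intro A hA
    rcases Nat.eq_zero_or_pos A.card with h0 | h0
    · have hA0 : A = ∅ := card_eq_zero.1 h0
      rw [hA0, hsym.1, R647.AF.kap_sym.1]
      simp [cut]
    · have hne : A.Nonempty := card_pos.1 h0
      have hnu : A ≠ univ := by
        intro h
        rw [h, card_univ] at hA
        omega
      rw [R647.AF.kap_of hne hnu]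
      have hs1 : (1 : ℝ) ≤ A.card := by exact_mod_cast h0
      have hs2 : 2 * (A.card : ℝ) ≤ Fintype.card V := by exact_mod_cast hA
      exact W6.fin hn' hs1 hs2 (hH3 A h0 hA)
  refine ⟨H, hH1, hH2, fun A => ?_⟩
  rcases Nat.le_total (2 * A.card) (Fintype.card V) with h | h
  · exact half A h
  · have h1 := half Aᶜ (by rw [card_compl]; omega)
    rwa [hsym.2, W6.cut_compl' hH1, R647.AF.kap_sym.2] at h1

end Pool.Agent.N4.KR
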