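import Pool.Agent.N4.KR.Stm2

/-!
# The gauge for degrees in `[a, b]`, with the constant `51`
-/

set_option autoImplicit false
set_option linter.unusedSectionVars false

namespace Pool.Agent.N4.KR

namespace W7

open Finset Pool.Agent.R647.AF

variable {V : Type} [Fintype V] [DecidableEq V]

lemma w7_deg {c : Finset V → ℝ} (hc : Sym c) {X Y Z : Finset V} (h1 : Disjoint X Y)
    (h2 : Disjoint X Z) (h3 : Disjoint Y Z)
    (h : ¬ (X.Nonempty ∧ Y.Nonempty ∧ Z.Nonempty ∧ X ∪ Y ∪ Z ≠ univ)) : T c X Y Z = 0 := by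
  rcases X.eq_empty_or_nonempty with hX | hX
  · rw [hX, T_empty hc.1]
  rcases Y.eq_empty_or_nonempty with hY | hY
  · rw [T_perm12, hY, T_empty hc.1]
  rcases Z.eq_empty_or_nonempty with hZ | hZ
  · rw [T_perm13, hZ, T_empty hc.1]
  by_cases hU : X ∪ Y ∪ Z = univ
  · rw [T_four hc h1 h2 h3, hU, compl_univ, T_empty hc.1]
  · exact absurd ⟨hX, hY, hZ, hU⟩ h

lemma w7_T (c : Finset V → ℝ) (r m : ℝ) (X Y Z : Finset V) :
    T (fun S => r * (c S - m * kap S)) X Y Z = r * (T c X Y Z - m * T kap X Y Z) := by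
  unfold T
  ring

lemma w7_cut_mul (H : V → V → ℝ) (r : ℝ) (S : Finset V) :
    cut (fun i j => r * H i j) S = r * cut H S := by
  unfold cut
  rw [mul_sum]
  exact sum_congr rfl fun i _ => by rw [mul_sum]

end W7

open Finset Pool.Agent.R647.AF W7 in
theorem w7 : Gauge2 := by
  intro hCut V _ _ c o a b hc hab hV h
  have first : min (3 * √(Fintype.card V : ℝ)) 51 * (b - a) =
      3 * √(Fintype.card V : ℝ) * (b - a) →
      ∃ G : V → V → ℝ, (∀ i j, G i j = G j i) ∧ (∀ i, c {i} + cut G {i} = 0) ∧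
        ∀ S : Finset V, (a - min (3 * √(Fintype.card V : ℝ)) 51 * (b - a)) * kap S ≤
          c S + cut G S := by
    intro hmin
    obtain ⟨u1, u2, u3, u4⟩ := uu_lower hc o hab (by omega) h
    refine ⟨g (fun X => c X - a * kap X), fun i j => g_comm _ i j, fun i => u3 i, fun S => ?_⟩
    rw [hmin]
    exact u1 S
  rcases le_or_gt (3 * √(Fintype.card V : ℝ)) 51 with hle | hgt
  · exact first (by rw [min_eq_left hle])
  rcases hab.eq_or_lt with hab' | hab'
  · exact first (by rw [hab', sub_self, mul_zero, mul_zero])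
  clear first
  rw [min_eq_right hgt.le]
  have hcard : 200 ≤ Fintype.card V := by
    have h1 : (17 : ℝ) < √(Fintype.card V : ℝ) := by linarith
    have h2 : (17 : ℝ) ^ 2 < (Fintype.card V : ℝ) := by
      rwa [Real.lt_sqrt (by norm_num)] at h1
    have h3 : (200 : ℝ) ≤ (Fintype.card V : ℝ) := by
      have : (200 : ℝ) ≤ 17 ^ 2 := by norm_num
      linarith
    exact_mod_cast h3
  obtain ⟨r, hr⟩ : ∃ r : ℝ, r = (b - a) / 2 := ⟨_, rfl⟩
  obtain ⟨m, hm⟩ : ∃ m : ℝ, m = (a + b) / 2 := ⟨_, rfl⟩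
  have hr0 : 0 < r := by rw [hr]; linarith
  have hrr : r * r⁻¹ = 1 := mul_inv_cancel₀ hr0.ne'
  obtain ⟨f, hf⟩ : ∃ f : Finset V → ℝ, f = fun S => r⁻¹ * (c S - m * kap S) := ⟨_, rfl⟩
  have hfS : ∀ S, r * f S = c S - m * kap S := by
    intro S
    rw [hf]
    show r * (r⁻¹ * (c S - m * kap S)) = _
    rw [← mul_assoc, hrr, one_mul]
  have hfsym : Sym f := by
    rw [hf]
    constructor
    · show r⁻¹ * (c ∅ - m * kap ∅) = 0
      rw [hc.1, kap_sym.1]; ring
    · intro S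
      show r⁻¹ * (c Sᶜ - m * kap Sᶜ) = r⁻¹ * (c S - m * kap S)
      rw [hc.2, kap_sym.2]
  have hT : ∀ A B C : Finset V, Disjoint A B → Disjoint A C → Disjoint B C → |T f A B C| ≤ 1 := by
    intro X Y Z h1 h2 h3
    by_cases hg : X.Nonempty ∧ Y.Nonempty ∧ Z.Nonempty ∧ X ∪ Y ∪ Z ≠ univ
    · obtain ⟨hX, hY, hZ, hU⟩ := hg
      have k1 := T_kap h1 h2 h3 hX hY hZ hU
      have k2 := bd_of hc o hab h X Y Z h1 h2 h3
      rw [T_sub, k1] at k2
      rw [hf, w7_T, k1, abs_mul, abs_inv, abs_of_pos hr0, inv_mul_le_iff₀ hr0, mul_one, abs_le]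
      rw [hr, hm]
      constructor <;> linarith [k2.1, k2.2]
    · rw [w7_deg hfsym h1 h2 h3 hg, abs_zero]
      norm_num
  obtain ⟨H, hH, hH1, hH2⟩ := hCut V f hcard hfsym hT
  have hGs : ∀ i j, (fun i j => -r * H i j) i j = (fun i j => -r * H i j) j i := by
    intro i j
    show -r * H i j = -r * H j i
    rw [hH]
  have key : ∀ S, c S + cut (fun i j => -r * H i j) S = m * kap S + r * (f S - cut H S) := by
    intro S
    rw [w7_cut_mul, mul_sub, hfS]
    ring
  have hsing : ∀ i, c {i} + cut (fun i j => -r * H i j) {i} = 0 := by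
    intro i
    rw [key, kap_single i (by omega), hH1]
    ring
  refine ⟨fun i j => -r * H i j, hGs, hsing, fun S => ?_⟩
  have h3 := (abs_le.1 (hH2 S)).1
  rw [key]
  have h7 := mul_le_mul_of_nonneg_left h3 hr0.le
  have e : (a - 51 * (b - a)) * kap S = m * kap S + r * -(103 * kap S) := by
    rw [hm, hr]; ring
  rw [e]
  linarith

end Pool.Agent.N4.KR
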